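import Pool.Agent.Run7.h271.TV.Iso
import Pool.Agent.Run7.h271.EF.Fin

/-!
Continuous families.
-/

set_option autoImplicit false

namespace Pool.Agent.Run7.h271.TV

open FirstOrder FirstOrder.Language Set MeasureTheory
open scoped Classical

/-! ### enumeration of an infinite set of numbers -/

theorem clopen_count {X : Type} [TopologicalSpace X] {p : X → ℕ → Prop}
    (hp : ∀ b, IsClopen {x | p x b}) : ∀ b m, IsClopen {x | Nat.count (p x) b = m}
  | 0, m => by
    by_cases h : (0 : ℕ) = m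
    · subst h
      have : {x : X | Nat.count (p x) 0 = 0} = univ := by
        ext x
        simp
      rw [this]
      exact isClopen_univ
    · have : {x : X | Nat.count (p x) 0 = m} = ∅ := by
        ext x
        simp [h]
      rw [this]
      exact isClopen_empty
  | b + 1, 0 => by
    have e : {x : X | Nat.count (p x) (b + 1) = 0} =
        {x | Nat.count (p x) b = 0} ∩ {x | p x b}ᶜ := by
      ext x
      simp only [mem_ofPred_eq, mem_inter_iff, mem_compl_iff, Nat.count_succ]
      split_ifs with h <;> simp [h]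
    rw [e]
    exact (clopen_count hp b 0).inter (hp b).compl
  | b + 1, m + 1 => by
    have e : {x : X | Nat.count (p x) (b + 1) = m + 1} =
        ({x | Nat.count (p x) b = m + 1} ∩ {x | p x b}ᶜ) ∪
          ({x | Nat.count (p x) b = m} ∩ {x | p x b}) := by
      ext x
      simp only [mem_ofPred_eq, mem_inter_iff, mem_compl_iff, mem_union, Nat.count_succ]
      split_ifs with h <;> simp [h]
    rw [e]
    exact ((clopen_count hp b (m + 1)).inter (hp b).compl).union
      ((clopen_count hp b m).inter (hp b))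

theorem nth_iff {p : ℕ → Prop} (hp : (Set.ofPred p).Infinite) (m b : ℕ) :
    Nat.nth p m = b ↔ p b ∧ Nat.count p b = m := by
  constructor
  · rintro rfl
    exact ⟨Nat.nth_mem_of_infinite hp m, Nat.count_nth_of_infinite hp m⟩
  · rintro ⟨h1, rfl⟩
    exact Nat.nth_count h1

variable {L : FirstOrder.Language.{0, 0}} {T : Set L.Sentence}

theorem inf_D {S : (Ls L).Structure ℕ} (h : Infinite (D S)) : (Set.ofPred (U S 1)).Infinite :=
  infinite_coe_iff.1 h

/-- the enumeration of the universe of the decoded structure -/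
noncomputable def en (S : (Ls L).Structure ℕ) (h : Infinite (D S)) : ℕ ≃ D S :=
  Equiv.ofBijective (fun m => ⟨Nat.nth (U S 1) m, Nat.nth_mem_of_infinite (inf_D h) m⟩) (by
    constructor
    · intro a b hab
      exact Nat.nth_injective (inf_D h) (congrArg Subtype.val hab)
    · rintro ⟨y, hy⟩
      exact ⟨Nat.count (U S 1) y, Subtype.ext (Nat.nth_count hy)⟩)

theorem en_iff (S : (Ls L).Structure ℕ) (h : Infinite (D S)) (m b : ℕ) :
    (en S h m).1 = b ↔ U S 1 b ∧ Nat.count (U S 1) b = m := nth_iff (inf_D h) m b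

/-- the decoded structure on `ℕ` -/
@[reducible] noncomputable def decN {S : (Ls L).Structure ℕ} (h : Good T S)
    (hi : Infinite (D S)) : L.Structure ℕ :=
  @Equiv.inducedStructure L (D S) ℕ (dec h) (en S hi).symm

theorem decN_iso {S : (Ls L).Structure ℕ} (h : Good T S) (hi : Infinite (D S)) :
    Iso (dec h) (decN h hi) := @iso_induced L (D S) ℕ (dec h) (en S hi).symm

theorem decN_rel {S : (Ls L).Structure ℕ} (h : Good T S) (hi : Infinite (D S)) {k : ℕ}
    (R : L.Relations k) (a : Fin k → ℕ) : @Structure.RelMap L ℕ (decN h hi) k R a ↔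
      ∃ z, IsTup S z (fun i => en S hi (a i)) ∧ V S k (rl R) z := Iff.rfl

theorem decN_fun {S : (Ls L).Structure ℕ} (h : Good T S) (hi : Infinite (D S)) {k : ℕ}
    (F : L.Functions k) (a : Fin k → ℕ) (b : ℕ) :
    @Structure.funMap L ℕ (decN h hi) k F a = b ↔
      ∃ z, IsTup S z (fun i => en S hi (a i)) ∧
        q S k (Term.func F fun j => vr j) 1 (vr 0) z (en S hi b).1 := by
  rw [← dec_fun h]
  exact Equiv.symm_apply_eq (en S hi)

section family

variable {f : (ℕ → Bool) → (Ls L).Structure ℕ}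

theorem clU (hcl : ∀ (n : ℕ) (R : (Ls L).Relations n) (a : Fin n → ℕ),
    IsClopen {x : ℕ → Bool | @Structure.RelMap (Ls L) ℕ (f x) n R a}) (n y : ℕ) :
    IsClopen {x | U (f x) n y} := hcl 1 (R1.U n : R1 L) ![y]

theorem clV (hcl : ∀ (n : ℕ) (R : (Ls L).Relations n) (a : Fin n → ℕ),
    IsClopen {x : ℕ → Bool | @Structure.RelMap (Ls L) ℕ (f x) n R a}) (n : ℕ)
    (φ : L.BoundedFormula Empty n) (y : ℕ) :
    IsClopen {x | V (f x) n φ y} := hcl 1 (R1.V n φ : R1 L) ![y]

theorem clq (hcl : ∀ (n : ℕ) (R : (Ls L).Relations n) (a : Fin n → ℕ),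
    IsClopen {x : ℕ → Bool | @Structure.RelMap (Ls L) ℕ (f x) n R a}) (n : ℕ) (t : Tm L n)
    (k : ℕ) (s : Tm L k) (y z : ℕ) :
    IsClopen {x | q (f x) n t k s y z} := hcl 2 (R2.q n t k s : R2 L) ![y, z]

theorem op_en (hcl : ∀ (n : ℕ) (R : (Ls L).Relations n) (a : Fin n → ℕ),
    IsClopen {x : ℕ → Bool | @Structure.RelMap (Ls L) ℕ (f x) n R a})
    (hi : ∀ x, Infinite (D (f x))) (m : ℕ) (P : (ℕ → Bool) → ℕ → Prop)
    (hP : ∀ c, IsOpen {x | P x c}) : IsOpen {x | P x (en (f x) (hi x) m).1} := by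
  have e : {x | P x (en (f x) (hi x) m).1} =
      ⋃ c, ({x | U (f x) 1 c} ∩ {x | Nat.count (U (f x) 1) c = m} ∩ {x | P x c}) := by
    ext x
    simp only [mem_ofPred_eq, mem_iUnion, mem_inter_iff]
    constructor
    · intro h
      have h1 := (en_iff (f x) (hi x) m _).1 rfl
      exact ⟨_, h1, h⟩
    · rintro ⟨c, h1, h⟩
      rw [(en_iff (f x) (hi x) m c).2 h1]
      exact h
  rw [e]
  refine isOpen_iUnion fun c => IsOpen.inter (IsOpen.inter ?_ ?_) (hP c)
  · exact (clU hcl 1 c).isOpen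
  · exact (clopen_count (fun b => clU hcl 1 b) c m).isOpen

theorem op_tup (hcl : ∀ (n : ℕ) (R : (Ls L).Relations n) (a : Fin n → ℕ),
    IsClopen {x : ℕ → Bool | @Structure.RelMap (Ls L) ℕ (f x) n R a})
    (hi : ∀ x, Infinite (D (f x))) {k : ℕ} (a : Fin k → ℕ) (z : ℕ) :
    IsOpen {x | IsTup (f x) z (fun i => en (f x) (hi x) (a i))} := by
  have e : {x | IsTup (f x) z (fun i => en (f x) (hi x) (a i))} =
      {x | U (f x) k z} ∩ ⋂ i, {x | q (f x) k (vr i) 1 (vr 0) z (en (f x) (hi x) (a i)).1} := by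
    ext x
    simp only [mem_ofPred_eq, mem_iInter, mem_inter_iff]
    exact Iff.rfl
  rw [e]
  refine IsOpen.inter (clU hcl k z).isOpen (isOpen_iInter_of_finite fun i => ?_)
  exact op_en hcl hi (a i) (fun x c => q (f x) k (vr i) 1 (vr 0) z c)
    fun c => (clq hcl _ _ _ _ _ _).isOpen

theorem decN_clopen (hcl : ∀ (n : ℕ) (R : (Ls L).Relations n) (a : Fin n → ℕ),
    IsClopen {x : ℕ → Bool | @Structure.RelMap (Ls L) ℕ (f x) n R a})
    (hg : ∀ x, Good T (f x)) (hi : ∀ x, Infinite (D (f x))) (k : ℕ) (R : L.Relations k)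
    (a : Fin k → ℕ) :
    IsClopen {x | @Structure.RelMap L ℕ (decN (hg x) (hi x)) k R a} := by
  have h1 : ∀ P : ℕ → (ℕ → Bool) → Prop, (∀ z, IsOpen {x | P z x}) →
      IsOpen {x | ∃ z, IsTup (f x) z (fun i => en (f x) (hi x) (a i)) ∧ P z x} := by
    intro P hP
    have e : {x | ∃ z, IsTup (f x) z (fun i => en (f x) (hi x) (a i)) ∧ P z x} =
        ⋃ z, ({x | IsTup (f x) z (fun i => en (f x) (hi x) (a i))} ∩ {x | P z x}) := by
      ext x
      simp only [mem_ofPred_eq, mem_iUnion, mem_inter_iff]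
    rw [e]
    exact isOpen_iUnion fun z => (op_tup hcl hi a z).inter (hP z)
  constructor
  · have e : {x | @Structure.RelMap L ℕ (decN (hg x) (hi x)) k R a}ᶜ =
        {x | ∃ z, IsTup (f x) z (fun i => en (f x) (hi x) (a i)) ∧ ¬ V (f x) k (rl R) z} := by
      ext x
      simp only [mem_ofPred_eq, mem_compl_iff, decN_rel]
      constructor
      · intro h
        obtain ⟨z, hz⟩ := (hg x).tup_ex k fun i => en (f x) (hi x) (a i)
        exact ⟨z, hz, fun h2 => h ⟨z, hz, h2⟩⟩
      · rintro ⟨z, hz, h2⟩ ⟨z', hz', h3⟩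
        rw [(hg x).tup_uniq hz' hz] at h3
        exact h2 h3
    rw [← isOpen_compl_iff, e]
    exact h1 _ fun z => (clV hcl k (rl R) z).compl.isOpen
  · exact h1 _ fun z => (clV hcl k (rl R) z).isOpen

theorem decN_open (hcl : ∀ (n : ℕ) (R : (Ls L).Relations n) (a : Fin n → ℕ),
    IsClopen {x : ℕ → Bool | @Structure.RelMap (Ls L) ℕ (f x) n R a})
    (hg : ∀ x, Good T (f x)) (hi : ∀ x, Infinite (D (f x))) (k : ℕ) (F : L.Functions k)
    (a : Fin k → ℕ) (b : ℕ) :
    IsOpen {x | @Structure.funMap L ℕ (decN (hg x) (hi x)) k F a = b} := by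
  have e : {x | @Structure.funMap L ℕ (decN (hg x) (hi x)) k F a = b} =
      ⋃ z, ({x | IsTup (f x) z (fun i => en (f x) (hi x) (a i))} ∩
        {x | q (f x) k (Term.func F fun j => vr j) 1 (vr 0) z (en (f x) (hi x) b).1}) := by
    ext x
    simp only [mem_ofPred_eq, mem_iUnion, mem_inter_iff]
    exact decN_fun (hg x) (hi x) F a b
  rw [e]
  refine isOpen_iUnion fun z => (op_tup hcl hi a z).inter ?_
  exact op_en hcl hi b (fun x c => q (f x) k (Term.func F fun j => vr j) 1 (vr 0) z c)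
    fun c => (clq hcl _ _ _ _ _ _).isOpen

/-! ### the number of the remaining elements -/

theorem meas_ge {X : Type} [TopologicalSpace X] (K : X → Set ℕ)
    (hK : ∀ y, MeasurableSet[borel X] {x | y ∈ K x}) (k : ℕ) :
    MeasurableSet[borel X] {x | (k : ℕ∞) ≤ (K x).encard} := by
  have e : {x | (k : ℕ∞) ≤ (K x).encard} =
      ⋃ F : {F : Finset ℕ // F.card = k}, ⋂ y : F.1, {x | y.1 ∈ K x} := by
    ext x
    simp only [mem_ofPred_eq, mem_iUnion, mem_iInter]
    constructor
    · intro h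
      obtain ⟨t, ht, htk⟩ := Set.exists_subset_encard_eq h
      have hf : t.Finite := Set.finite_of_encard_eq_coe htk
      refine ⟨⟨hf.toFinset, ?_⟩, fun y => ht (hf.mem_toFinset.1 y.2)⟩
      rw [hf.encard_eq_coe_toFinset_card] at htk
      exact_mod_cast htk
    · rintro ⟨⟨F, hF⟩, h⟩
      rw [← hF, ← Set.encard_coe_eq_coe_finsetCard F]
      exact Set.encard_le_encard fun y hy => h ⟨y, hy⟩
  rw [e]
  refine MeasurableSet.iUnion fun F => MeasurableSet.iInter fun y => hK y.1

theorem meas_eq {X : Type} [TopologicalSpace X] (K : X → Set ℕ)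
    (hK : ∀ y, MeasurableSet[borel X] {x | y ∈ K x}) (κ : ℕ∞) :
    MeasurableSet[borel X] {x | (K x).encard = κ} := by
  induction κ using ENat.recTopCoe with
  | top =>
    have e : {x | (K x).encard = ⊤} = ⋂ k : ℕ, {x | (k : ℕ∞) ≤ (K x).encard} := by
      ext x
      simp only [mem_ofPred_eq, mem_iInter]
      constructor
      · intro h k
        rw [h]
        exact le_top
      · intro h
        exact ENat.eq_top_iff_forall_ge.2 h
    rw [e]
    exact MeasurableSet.iInter fun k => meas_ge K hK k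
  | coe k =>
    have e : {x | (K x).encard = (k : ℕ∞)} =
        {x | (k : ℕ∞) ≤ (K x).encard} \ {x | ((k + 1 : ℕ) : ℕ∞) ≤ (K x).encard} := by
      ext x
      simp only [mem_ofPred_eq, mem_sdiff, not_le]
      constructor
      · intro h
        rw [h]
        refine ⟨le_rfl, ?_⟩
        exact_mod_cast Nat.lt_succ_self k
      · rintro ⟨h1, h2⟩
        refine le_antisymm ?_ h1
        rw [Nat.cast_add, Nat.cast_one] at h2
        exact ENat.lt_add_one_iff (ENat.natCast_ne_top k) |>.1 h2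
    rw [e]
    exact (meas_ge K hK k).diff (meas_ge K hK (k + 1))

theorem meas_J (hcl : ∀ (n : ℕ) (R : (Ls L).Relations n) (a : Fin n → ℕ),
    IsClopen {x : ℕ → Bool | @Structure.RelMap (Ls L) ℕ (f x) n R a}) (κ : ℕ∞) :
    MeasurableSet[borel (ℕ → Bool)] {x | {y : ℕ | ∀ n, ¬ U (f x) n y}.encard = κ} := by
  refine meas_eq (fun x => {y : ℕ | ∀ n, ¬ U (f x) n y}) (fun y => ?_) κ
  let _ : MeasurableSpace (ℕ → Bool) := borel (ℕ → Bool)
  have : BorelSpace (ℕ → Bool) := ⟨rfl⟩
  have e : {x | y ∈ {y : ℕ | ∀ n, ¬ U (f x) n y}} = ⋂ n, {x | U (f x) n y}ᶜ := by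
    ext x
    simp only [mem_ofPred_eq, mem_iInter, mem_compl_iff]
  rw [e]
  exact MeasurableSet.iInter fun n => (clU hcl n y).compl.isOpen.measurableSet

end family

end Pool.Agent.Run7.h271.TV
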