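import Pool.Agent.Run7.h271.TV.Main
import Pool.Agent.Run7.h271.EF.Main

/-!
The converse of the transfer.
-/

set_option autoImplicit false
set_option linter.style.haveILetI false

namespace Pool.Agent.Run7.h271.TV

open FirstOrder FirstOrder.Language Set MeasureTheory

variable {L : FirstOrder.Language.{0, 0}}

/-- finite and countable sets -/
def C : Option ℕ → Type
  | none => ℕ
  | some k => Fin k

theorem exists_C (A : Type) [Countable A] : ∃ o, Nonempty (A ≃ C o) := by
  rcases finite_or_infinite A with h | h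
  · exact ⟨some (Nat.card A), ⟨Finite.equivFin A⟩⟩
  · exact ⟨none, (nonempty_equiv_of_countable : Nonempty (A ≃ ℕ))⟩

theorem infinite_W : Infinite (W ℕ) := by
  refine Infinite.of_injective (fun n : ℕ => (⟨1, fun _ => n⟩ : W ℕ)) fun a b hab => ?_
  simp only [Sigma.mk.injEq, heq_eq_eq, true_and] at hab
  exact congrFun hab 0

theorem exists_encC (o : Option ℕ) : Nonempty (C o ⊕ W ℕ ≃ ℕ) := by
  haveI : Infinite (W ℕ) := infinite_W
  haveI : Countable (C o) := by
    cases o with
    | none => exact inferInstanceAs (Countable ℕ)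
    | some k => exact inferInstanceAs (Countable (Fin k))
  exact nonempty_equiv_of_countable

theorem list_conv (T : L.Theory) (g : ℕ → L.Structure ℕ)
    (hg : ∀ S : L.Structure ℕ, @Theory.Model L ℕ S T →
      ∃ n : ℕ, Nonempty (@Language.Equiv L ℕ ℕ S (g n))) :
    ∃ g' : ℕ → (Ls L).Structure ℕ, ∀ S : (Ls L).Structure ℕ,
      @Theory.Model (Ls L) ℕ S (Ts (T ∪ L.infiniteTheory)) →
        ∃ n : ℕ, Nonempty (@Language.Equiv (Ls L) ℕ ℕ S (g' n)) := by
  have he := exists_encC
  let e := fun o => Classical.choice (he o)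
  let G : Option ℕ × ℕ → (Ls L).Structure ℕ := fun i =>
    @Equiv.inducedStructure (Ls L) (C i.1 ⊕ W ℕ) ℕ (std (C i.1) (g i.2)) (e i.1)
  obtain ⟨ν, hν⟩ := exists_surjective_nat (Option ℕ × ℕ)
  refine ⟨fun m => G (ν m), fun S hS => ?_⟩
  have h := (model_iff _ _).1 hS
  have hi : Infinite (D S) := (@model_infiniteTheory_iff L (D S) (dec h)).1
    (model_mono subset_union_right (dec_model h))
  obtain ⟨n, hn⟩ := hg (decN h hi) (iso_model (decN_iso h hi) T
      (model_mono subset_union_left (dec_model h)))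
  obtain ⟨o, ho⟩ := exists_C (J S)
  obtain ⟨m, hm⟩ := hν (o, n)
  refine ⟨m, ?_⟩
  change Iso S (G (ν m))
  rw [hm]
  have h1 : Iso (std (C o) (g n)) (G (o, n)) :=
    @iso_induced (Ls L) (C o ⊕ W ℕ) ℕ (std (C o) (g n)) (e o)
  exact (iso_std h).symm.trans ((std_iso ((decN_iso h hi).trans hn) ho).trans h1)

/-- Countably many Borel sets become clopen on a suitable perfect set. -/
theorem exists_clopen {I : Type} [Countable I] (B : I → Set (ℕ → Bool))
    (hB : ∀ i, MeasurableSet[borel (ℕ → Bool)] (B i)) :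
    ∃ h : (ℕ → Bool) → (ℕ → Bool), Continuous h ∧ Function.Injective h ∧
      ∀ i, IsClopen (h ⁻¹' B i) := by
  classical
  have hpol : PolishSpace ((ℕ → Bool) × (I → Bool)) := EF.pol _
  let A : Set ((ℕ → Bool) × (I → Bool)) := {p | ∀ i, p.2 i = true ↔ p.1 ∈ B i}
  have hcl : ∀ i, IsClopen {p : (ℕ → Bool) × (I → Bool) | p.2 i = true} := by
    intro i
    have h1 : Continuous fun p : (ℕ → Bool) × (I → Bool) => p.2 i :=
      (continuous_apply i).comp continuous_snd
    exact (isClopen_discrete {true}).preimage h1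
  have hA : MeasurableSet[borel _] A := by
    let _ : MeasurableSpace ((ℕ → Bool) × (I → Bool)) := borel _
    have : BorelSpace ((ℕ → Bool) × (I → Bool)) := ⟨rfl⟩
    have e : A = ⋂ i, (({p : (ℕ → Bool) × (I → Bool) | p.2 i = true} ∩ (Prod.fst ⁻¹' B i)) ∪
        ({p : (ℕ → Bool) × (I → Bool) | p.2 i = true}ᶜ ∩ (Prod.fst ⁻¹' B i)ᶜ)) := by
      ext p
      simp only [mem_iInter, mem_union, mem_inter_iff, mem_compl_iff, mem_preimage, A,
        mem_ofPred_eq]
      refine forall_congr' fun i => ?_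
      tauto
    rw [e]
    have h1 : Measurable[borel _, borel _]
        (Prod.fst : (ℕ → Bool) × (I → Bool) → (ℕ → Bool)) := continuous_fst.borel_measurable
    have h2 := fun i => h1 (hB i)
    exact MeasurableSet.iInter fun i => ((hcl i).isOpen.measurableSet.inter (h2 i)).union
      ((hcl i).isOpen.measurableSet.compl.inter (h2 i).compl)
  have hu : ¬ A.Countable := by
    intro hc
    let s : (ℕ → Bool) → (ℕ → Bool) × (I → Bool) := fun x => (x, fun i => decide (x ∈ B i))
    have hs : Function.Injective s := fun x y hxy => congrArg Prod.fst hxy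
    have h1 : (s ⁻¹' A).Countable := hc.preimage_of_injOn hs.injOn
    have h2 : s ⁻¹' A = univ := by
      ext x
      simp only [mem_preimage, mem_univ, iff_true]
      intro i
      simp [s]
    rw [h2] at h1
    exact not_countable_cantor h1
  obtain ⟨k, hk1, hk2, hk3⟩ := EF.perfect_borel hA hu
  refine ⟨fun c => (k c).1, continuous_fst.comp hk1, fun c c' hcc => ?_, fun i => ?_⟩
  · apply hk2
    refine Prod.ext hcc (funext fun i => ?_)
    rw [Bool.eq_iff_iff, hk3 c i, hk3 c' i]
    have h1 : (k c).1 = (k c').1 := hcc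
    rw [h1]
  · have e : (fun c => (k c).1) ⁻¹' B i = k ⁻¹' {p | p.2 i = true} := by
      ext c
      exact (hk3 c i).symm
    rw [e]
    exact (hcl i).preimage hk1

section family

variable {f : (ℕ → Bool) → L.Structure ℕ}

theorem cont_tv (hop : ∀ (n : ℕ) (F : L.Functions n) (a : Fin n → ℕ) (b : ℕ),
      IsOpen {x : ℕ → Bool | @Structure.funMap L ℕ (f x) n F a = b}) {n : ℕ} (a : Fin n → ℕ) :
    ∀ t : Tm L n, Continuous fun x => tv (f x) t a
  | Term.var (Sum.inl e) => e.elim
  | Term.var (Sum.inr i) => continuous_const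
  | Term.func (l := k) F ts => by
    have ih := fun j => cont_tv hop a (ts j)
    have h1 : Continuous fun x => fun j => tv (f x) (ts j) a := continuous_pi ih
    rw [continuous_discrete_rng]
    intro b
    have e : (fun x => tv (f x) (Term.func F ts) a) ⁻¹' {b} =
        ⋃ c : Fin k → ℕ, ((fun x => fun j => tv (f x) (ts j) a) ⁻¹' {c} ∩
          {x | @Structure.funMap L ℕ (f x) k F c = b}) := by
      ext x
      simp only [mem_preimage, mem_singleton_iff, mem_iUnion, mem_inter_iff, mem_ofPred_eq]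
      constructor
      · intro h
        exact ⟨_, rfl, h⟩
      · rintro ⟨c, hc, h⟩
        rw [← hc] at h
        exact h
    rw [e]
    exact isOpen_iUnion fun c => ((isOpen_discrete {c}).preimage h1).inter (hop k F c b)

theorem meas_tr (hcl : ∀ (n : ℕ) (R : L.Relations n) (a : Fin n → ℕ),
      IsClopen {x : ℕ → Bool | @Structure.RelMap L ℕ (f x) n R a})
    (hop : ∀ (n : ℕ) (F : L.Functions n) (a : Fin n → ℕ) (b : ℕ),
      IsOpen {x : ℕ → Bool | @Structure.funMap L ℕ (f x) n F a = b}) {n : ℕ}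
    (φ : L.BoundedFormula Empty n) : ∀ a : Fin n → ℕ,
      MeasurableSet[borel (ℕ → Bool)] {x | tr (f x) φ a} := by
  let _ : MeasurableSpace (ℕ → Bool) := borel _
  have : BorelSpace (ℕ → Bool) := ⟨rfl⟩
  induction φ with
  | falsum =>
    intro a
    have e : {x | tr (f x) (BoundedFormula.falsum : L.BoundedFormula Empty _) a} = ∅ := by
      ext x
      exact Iff.rfl
    rw [e]
    exact MeasurableSet.empty
  | equal t s =>
    intro a
    have h1 : IsClosed {x | tv (f x) t a = tv (f x) s a} :=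
      isClosed_eq (cont_tv hop a t) (cont_tv hop a s)
    exact h1.measurableSet
  | rel R ts =>
    intro a
    have h1 : Continuous fun x => fun j => tv (f x) (ts j) a :=
      continuous_pi fun j => cont_tv hop a (ts j)
    have e : {x | tr (f x) (BoundedFormula.rel R ts) a} =
        ⋃ c, ((fun x => fun j => tv (f x) (ts j) a) ⁻¹' {c} ∩
          {x | @Structure.RelMap L ℕ (f x) _ R c}) := by
      ext x
      simp only [mem_preimage, mem_singleton_iff, mem_iUnion, mem_inter_iff, mem_ofPred_eq]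
      constructor
      · intro h
        exact ⟨_, rfl, h⟩
      · rintro ⟨c, hc, h⟩
        rw [← hc] at h
        exact h
    rw [e]
    exact (isOpen_iUnion fun c => ((isOpen_discrete {c}).preimage h1).inter
      (hcl _ R c).isOpen).measurableSet
  | imp φ ψ ih1 ih2 =>
    intro a
    have e : {x | tr (f x) (φ.imp ψ) a} = {x | tr (f x) φ a}ᶜ ∪ {x | tr (f x) ψ a} := by
      ext x
      simp only [mem_ofPred_eq, mem_union, mem_compl_iff]
      exact imp_iff_not_or
    rw [e]
    exact (ih1 a).compl.union (ih2 a)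
  | all φ ih =>
    intro a
    have e : {x | tr (f x) φ.all a} = ⋂ b : ℕ, {x | tr (f x) φ (Fin.snoc a b)} := by
      ext x
      simp only [mem_ofPred_eq, mem_iInter]
      exact Iff.rfl
    rw [e]
    exact MeasurableSet.iInter fun b => ih _

theorem meas_sR (hcl : ∀ (n : ℕ) (R : L.Relations n) (a : Fin n → ℕ),
      IsClopen {x : ℕ → Bool | @Structure.RelMap L ℕ (f x) n R a})
    (hop : ∀ (n : ℕ) (F : L.Functions n) (a : Fin n → ℕ) (b : ℕ),
      IsOpen {x : ℕ → Bool | @Structure.funMap L ℕ (f x) n F a = b}) :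
    ∀ {n : ℕ} (R : Rels L n) (w : Fin n → Empty ⊕ W ℕ),
      MeasurableSet[borel (ℕ → Bool)] {x | sR Empty (f x) R w} := by
  let _ : MeasurableSpace (ℕ → Bool) := borel _
  have : BorelSpace (ℕ → Bool) := ⟨rfl⟩
  intro n R w
  match n, R, w with
  | 1, R1.U n, w =>
    exact MeasurableSet.const (∃ a : Fin n → ℕ, w 0 = Sum.inr ⟨n, a⟩)
  | 1, R1.V n φ, w =>
    have e : {x | sR (n := 1) Empty (f x) (R1.V n φ : R1 L) w} =
        ⋃ a : Fin n → ℕ, ({_x | w 0 = Sum.inr ⟨n, a⟩} ∩ {x | tr (f x) φ a}) := by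
      ext x
      simp only [mem_ofPred_eq, mem_iUnion, mem_inter_iff]
      exact Iff.rfl
    rw [e]
    exact MeasurableSet.iUnion fun a => (MeasurableSet.const _).inter (meas_tr hcl hop φ a)
  | 2, R2.q n t k s, w =>
    have e : {x | sR (n := 2) Empty (f x) (R2.q n t k s : R2 L) w} =
        ⋃ a : Fin n → ℕ, ⋃ b : Fin k → ℕ, ({_x | w 0 = Sum.inr ⟨n, a⟩ ∧ w 1 = Sum.inr ⟨k, b⟩} ∩
          {x | tv (f x) t a = tv (f x) s b}) := by
      ext x
      simp only [mem_ofPred_eq, mem_iUnion, mem_inter_iff]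
      constructor
      · rintro ⟨a, b, h1, h2, h3⟩
        exact ⟨a, b, ⟨h1, h2⟩, h3⟩
      · rintro ⟨a, b, ⟨h1, h2⟩, h3⟩
        exact ⟨a, b, h1, h2, h3⟩
    rw [e]
    refine MeasurableSet.iUnion fun a => MeasurableSet.iUnion fun b =>
      (MeasurableSet.const _).inter ?_
    have h1 : IsClosed {x | tv (f x) t a = tv (f x) s b} :=
      isClosed_eq (cont_tv hop a t) (cont_tv hop b s)
    exact h1.measurableSet

theorem fam_conv (hL : Countable L.Symbols) (T : L.Theory) (f : (ℕ → Bool) → L.Structure ℕ)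
    (hmod : ∀ x, @Theory.Model L ℕ (f x) T)
    (hinj : ∀ x y, Nonempty (@Language.Equiv L ℕ ℕ (f x) (f y)) → x = y)
    (hcl : ∀ (n : ℕ) (R : L.Relations n) (a : Fin n → ℕ),
      IsClopen {x : ℕ → Bool | @Structure.RelMap L ℕ (f x) n R a})
    (hop : ∀ (n : ℕ) (F : L.Functions n) (a : Fin n → ℕ) (b : ℕ),
      IsOpen {x : ℕ → Bool | @Structure.funMap L ℕ (f x) n F a = b}) :
    ∃ f' : (ℕ → Bool) → (Ls L).Structure ℕ,
      (∀ x : ℕ → Bool, @Theory.Model (Ls L) ℕ (f' x) (Ts (T ∪ L.infiniteTheory))) ∧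
      (∀ x y : ℕ → Bool, Nonempty (@Language.Equiv (Ls L) ℕ ℕ (f' x) (f' y)) → x = y) ∧
      (∀ (n : ℕ) (R : (Ls L).Relations n) (a : Fin n → ℕ),
          IsClopen {x : ℕ → Bool | @Structure.RelMap (Ls L) ℕ (f' x) n R a}) ∧
      (∀ (n : ℕ) (F : (Ls L).Functions n) (a : Fin n → ℕ) (b : ℕ),
          IsOpen {x : ℕ → Bool | @Structure.funMap (Ls L) ℕ (f' x) n F a = b}) := by
  obtain ⟨e⟩ := exists_enc
  let enc : L.Structure ℕ → (Ls L).Structure ℕ := fun S =>
    @Equiv.inducedStructure (Ls L) (Empty ⊕ W ℕ) ℕ (std Empty S) e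
  have henc : ∀ S, Iso (std Empty S) (enc S) := fun S =>
    @iso_induced (Ls L) (Empty ⊕ W ℕ) ℕ (std Empty S) e
  have hgood : ∀ S : L.Structure ℕ, @Theory.Model L ℕ S T →
      Good (T ∪ L.infiniteTheory) (std Empty S) := fun S hS =>
    std_good S _ (model_union hS ((@model_infiniteTheory_iff L ℕ S).2 inferInstance))
  have hmod' : ∀ S : L.Structure ℕ, @Theory.Model L ℕ S T →
      @Theory.Model (Ls L) ℕ (enc S) (Ts (T ∪ L.infiniteTheory)) := by
    intro S hS
    haveI : Nonempty (Empty ⊕ W ℕ) := ⟨Sum.inr ⟨0, Fin.elim0⟩⟩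
    exact iso_model (henc S) _ ((model_iff _ _).2 (hgood S hS))
  have hinj' : ∀ S S' : L.Structure ℕ, @Theory.Model L ℕ S T → @Theory.Model L ℕ S' T →
      Iso (enc S) (enc S') → Iso S S' := by
    intro S S' hS hS' h
    have h1 : Iso (std Empty S) (std Empty S') := (henc S).trans (h.trans (henc S').symm)
    exact (std_dec (hgood S hS)).trans
      ((dec_iso (hgood S hS) (hgood S' hS') h1).trans (std_dec (hgood S' hS')).symm)
  have hc : Countable (Σ n, Rels L n) := by
    have h1 := Ls_countable L hL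
    have h2 : Function.Injective (fun p : (Σ n, Rels L n) => (Sum.inr p : (Ls L).Symbols)) :=
      Sum.inr_injective
    exact h2.countable
  obtain ⟨h, hh1, hh2, hh3⟩ := exists_clopen
    (I := Σ p : (Σ n, Rels L n), (Fin p.1 → Empty ⊕ W ℕ))
    (fun i => {x | sR Empty (f x) i.1.2 i.2}) (fun i => meas_sR hcl hop i.1.2 i.2)
  refine ⟨fun c => enc (f (h c)), fun c => hmod' _ (hmod _), fun c c' hcc => ?_,
    fun n R a => ?_, fun n F => ?_⟩
  · exact hh2 (hinj _ _ (hinj' _ _ (hmod _) (hmod _) hcc))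
  · exact hh3 ⟨⟨n, R⟩, e.symm ∘ a⟩
  · exact (F : Empty).elim

end family

theorem transfer_conv (hL : Countable L.Symbols) (T : L.Theory) (h : Alternative T) :
    Alternative (Ts (T ∪ L.infiniteTheory)) := by
  rcases h with ⟨g, hg⟩ | ⟨f, h1, h2, h3, h4⟩
  · exact Or.inl (list_conv T g hg)
  · exact Or.inr (fam_conv hL T f h1 h2 h3 h4)

end Pool.Agent.Run7.h271.TV
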