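import Pool.Agent.Run7.h271.TV.Lang

/-!
From the models of the axioms for tuples to structures for the original language.
-/

set_option autoImplicit false

namespace Pool.Agent.Run7.h271.TV

open FirstOrder FirstOrder.Language

variable {L : FirstOrder.Language.{0, 0}} {M : Type} {T : Set L.Sentence} {S : (Ls L).Structure M}

/-- the universe of the decoded structure: the tuples of length one -/
abbrev D (S : (Ls L).Structure M) : Type := {y : M // U S 1 y}

/-- the remaining elements -/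
abbrev J (S : (Ls L).Structure M) : Type := {y : M // ∀ n, ¬ U S n y}

/-- `y` is the value of the term `t` for the tuple `x` -/
abbrev val (S : (Ls L).Structure M) {n : ℕ} (t : Tm L n) (x : M) (y : D S) : Prop :=
  q S n t 1 (vr 0) x y

/-- `x` is the tuple `a` -/
def IsTup (S : (Ls L).Structure M) {n : ℕ} (x : M) (a : Fin n → D S) : Prop :=
  U S n x ∧ ∀ i, val S (vr i) x (a i)

namespace Good

variable (h : Good T S)

include h

theorem q_dom2 {n : ℕ} {i : Tm L n} {k : ℕ} {j : Tm L k} {x z : M} (hq : q S n i k j x z) :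
    U S k z := h.q_dom1 _ _ _ _ _ _ (h.q_symm _ _ _ _ _ _ hq)

/-- the values are unique -/
theorem co_uniq {n : ℕ} {i : Tm L n} {x : M} {y y' : D S} (h1 : val S i x y)
    (h2 : val S i x y') : y = y' := by
  apply Subtype.ext
  refine h.uniq 1 _ _ y.2 y'.2 fun j => ?_
  rw [Subsingleton.elim j 0]
  exact h.q_trans _ _ _ _ _ _ _ _ _ (h.q_symm _ _ _ _ _ _ h1) h2

theorem co_ex {n : ℕ} (i : Tm L n) {x : M} (hx : U S n x) : ∃ y : D S, val S i x y := by
  obtain ⟨y, hy⟩ := h.q_one n i x hx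
  exact ⟨⟨y, h.q_dom2 hy⟩, hy⟩

/-- comparison of values -/
theorem q_iff {n k : ℕ} {i : Tm L n} {j : Tm L k} {x z : M} {y y' : D S} (h1 : val S i x y)
    (h2 : val S j z y') : q S n i k j x z ↔ y = y' := by
  constructor
  · intro hq
    exact h.co_uniq h1 (h.q_trans _ _ _ _ _ _ _ _ _ hq h2)
  · rintro rfl
    exact h.q_trans _ _ _ _ _ _ _ _ _ h1 (h.q_symm _ _ _ _ _ _ h2)

/-- extending a tuple -/
theorem tup_snoc {n : ℕ} {x z : M} {a : Fin n → D S} {b : D S} (hx : IsTup S x a)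
    (hz : U S (n + 1) z) (hzx : ∀ i : Fin n, q S n (vr i) (n + 1) (vr i.castSucc) x z)
    (hzb : val S (vr (Fin.last n)) z b) : IsTup S z (Fin.snoc a b : Fin (n + 1) → D S) := by
  refine ⟨hz, fun i => ?_⟩
  refine Fin.lastCases ?_ (fun i => ?_) i
  · rw [Fin.snoc_last]
    exact hzb
  · rw [Fin.snoc_castSucc]
    exact h.q_trans _ _ _ _ _ _ _ _ _ (h.q_symm _ _ _ _ _ _ (hzx i)) (hx.2 i)

/-- all tuples exist -/
theorem tup_ex : ∀ (n : ℕ) (a : Fin n → D S), ∃ x, IsTup S x a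
  | 0, a => by
    obtain ⟨x, hx⟩ := h.U_zero
    exact ⟨x, hx, fun i => i.elim0⟩
  | n + 1, a => by
    obtain ⟨x, hx⟩ := tup_ex n fun i => a i.castSucc
    obtain ⟨z, hz, hzx, hzy⟩ := h.ext n x (a (Fin.last n)) hx.1 (a (Fin.last n)).2
    refine ⟨z, ?_⟩
    have h1 := h.tup_snoc hx hz hzx hzy
    have h2 : (Fin.snoc (fun i : Fin n => a i.castSucc) (a (Fin.last n)) : Fin (n + 1) → D S) = a :=
      Fin.snoc_init_self a
    rwa [h2] at h1

theorem tup_uniq {n : ℕ} {a : Fin n → D S} {x z : M} (hx : IsTup S x a) (hz : IsTup S z a) :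
    x = z :=
  h.uniq n x z hx.1 hz.1 fun i => (h.q_iff (hx.2 i) (hz.2 i)).2 rfl

/-- the values of the functions -/
theorem fun_ex {k : ℕ} (F : L.Functions k) (a : Fin k → D S) :
    ∃ y : D S, ∃ z, IsTup S z a ∧ val S (Term.func F fun j => vr j) z y := by
  obtain ⟨z, hz⟩ := h.tup_ex k a
  obtain ⟨y, hy⟩ := h.co_ex (Term.func F fun j => vr j) hz.1
  exact ⟨y, z, hz, hy⟩

end Good

/-- the decoded structure -/
@[reducible] noncomputable def dec (h : Good T S) : L.Structure (D S) where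
  funMap := fun {_} F a => Classical.choose (h.fun_ex F a)
  RelMap := fun {k} R a => ∃ z, IsTup S z a ∧ V S k (rl R) z

theorem dec_fun (h : Good T S) {k : ℕ} (F : L.Functions k) (a : Fin k → D S) (y : D S) :
    @Structure.funMap L (D S) (dec h) k F a = y ↔
      ∃ z, IsTup S z a ∧ val S (Term.func F fun j => vr j) z y := by
  have h1 : ∃ z, IsTup S z a ∧ val S (Term.func F fun j => vr j) z
      (@Structure.funMap L (D S) (dec h) k F a) := Classical.choose_spec (h.fun_ex F a)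
  constructor
  · rintro rfl
    exact h1
  · rintro ⟨z, hz, hy⟩
    obtain ⟨z', hz', hy'⟩ := h1
    rw [h.tup_uniq hz' hz] at hy'
    exact h.co_uniq hy' hy

theorem dec_rel (h : Good T S) {k : ℕ} (R : L.Relations k) (a : Fin k → D S) :
    @Structure.RelMap L (D S) (dec h) k R a ↔ ∃ z, IsTup S z a ∧ V S k (rl R) z := Iff.rfl

/-- values of terms -/
theorem term_val (h : Good T S) {n : ℕ} {x : M} {a : Fin n → D S} (hx : IsTup S x a)
    (v : Empty → D S) : ∀ t : Tm L n, val S t x (@Term.realize L (D S) (dec h) _ (Sum.elim v a) t)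
  | Term.var (Sum.inl e) => e.elim
  | Term.var (Sum.inr i) => hx.2 i
  | Term.func (l := k) F ts => by
    have ih := fun j => term_val h hx v (ts j)
    obtain ⟨z, hz, hy⟩ := (dec_fun h F (fun j => @Term.realize L (D S) (dec h) _ (Sum.elim v a)
      (ts j)) _).1 rfl
    exact h.q_trans _ _ _ _ _ _ _ _ _
      (h.sub n k F ts x z hx.1 hz.1 fun j => (h.q_iff (ih j) (hz.2 j)).2 rfl) hy

/-- the truth lemma -/
theorem truth (h : Good T S) {n : ℕ} (φ : L.BoundedFormula Empty n) :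
    ∀ (x : M) (a : Fin n → D S) (v : Empty → D S), IsTup S x a →
      (V S n φ x ↔ @BoundedFormula.Realize L (D S) (dec h) Empty n φ v a) := by
  induction φ with
  | falsum =>
    intro x a v hx
    exact ⟨fun h1 => (h.V_bot _ x h1).elim, fun h1 => h1.elim⟩
  | equal t₁ t₂ =>
    intro x a v hx
    rw [h.V_eq _ _ _ x hx.1, h.q_iff (term_val h hx v t₁) (term_val h hx v t₂)]
    exact Iff.rfl
  | rel R ts =>
    intro x a v hx
    obtain ⟨z, hz⟩ := h.tup_ex _ fun j => @Term.realize L (D S) (dec h) _ (Sum.elim v a) (ts j)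
    rw [h.V_rel _ _ R ts x z hx.1 hz.1 fun j => (h.q_iff (term_val h hx v (ts j)) (hz.2 j)).2 rfl]
    constructor
    · intro h2
      exact ⟨z, hz, h2⟩
    · rintro ⟨z', hz', h2⟩
      rw [h.tup_uniq hz hz']
      exact h2
  | imp f g ihf ihg =>
    intro x a v hx
    rw [h.V_imp _ f g x hx.1, ihf x a v hx, ihg x a v hx]
    exact Iff.rfl
  | all f ih =>
    intro x a v hx
    constructor
    · intro h1 b
      obtain ⟨z, hz, hzx, hzb⟩ := h.ext _ x b hx.1 b.2
      exact (ih z (Fin.snoc a b) v (h.tup_snoc hx hz hzx hzb)).1 (h.V_all1 _ f x z h1 hz hzx)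
    · intro h1
      by_contra hcon
      obtain ⟨z, hz, hzx, hzV⟩ := h.V_all2 _ f x hx.1 hcon
      obtain ⟨b, hb⟩ := h.co_ex (vr (Fin.last _)) hz
      exact hzV ((ih z (Fin.snoc a b) v (h.tup_snoc hx hz hzx hb)).2 (h1 b))

theorem dec_model (h : Good T S) : @Theory.Model L (D S) (dec h) T := by
  refine @Theory.Model.mk L (D S) (dec h) T fun σ hσ => ?_
  obtain ⟨x, hx⟩ := h.U_zero
  exact (truth h σ x _ _ ⟨hx, fun i => i.elim0⟩).1 (h.V_T σ hσ x hx)

/-! ### the standard models -/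

section std

variable {A : Type} (J' : Type)

/-- the tuples of elements of `A` -/
abbrev W (A : Type) : Type := Σ n, (Fin n → A)

/-- the value of a term -/
def tv (S' : L.Structure A) {n : ℕ} (t : Tm L n) (a : Fin n → A) : A :=
  @Term.realize L A S' _ (Sum.elim Empty.elim a) t

/-- the truth of a formula -/
def tr (S' : L.Structure A) {n : ℕ} (φ : L.BoundedFormula Empty n) (a : Fin n → A) : Prop :=
  @BoundedFormula.Realize L A S' Empty n φ Empty.elim a

/-- the interpretation of the unary symbols -/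
def sU (S' : L.Structure A) : R1 L → J' ⊕ W A → Prop
  | R1.U n, x => ∃ a : Fin n → A, x = Sum.inr ⟨n, a⟩
  | R1.V n φ, x => ∃ a : Fin n → A, x = Sum.inr ⟨n, a⟩ ∧ tr S' φ a

/-- the interpretation of the binary symbols -/
def sq (S' : L.Structure A) : R2 L → J' ⊕ W A → J' ⊕ W A → Prop
  | R2.q n t k s, x, z => ∃ (a : Fin n → A) (b : Fin k → A), x = Sum.inr ⟨n, a⟩ ∧
      z = Sum.inr ⟨k, b⟩ ∧ tv S' t a = tv S' s b

/-- the relations of the standard model -/
def sR (S' : L.Structure A) : ∀ {n : ℕ}, Rels L n → (Fin n → J' ⊕ W A) → Prop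
  | 1, R, x => sU J' S' R (x 0)
  | 2, R, x => sq J' S' R (x 0) (x 1)

/-- the standard model with the set `J'` of further elements -/
@[reducible] def std (S' : L.Structure A) : (Ls L).Structure (J' ⊕ W A) where
  funMap := fun {_} F => Empty.elim F
  RelMap := fun {_} R x => sR J' S' R x

variable {J'} (S' : L.Structure A)

theorem std_U (n : ℕ) (x : J' ⊕ W A) :
    U (std J' S') n x ↔ ∃ a : Fin n → A, x = Sum.inr ⟨n, a⟩ := Iff.rfl

theorem std_V (n : ℕ) (φ : L.BoundedFormula Empty n) (x : J' ⊕ W A) :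
    V (std J' S') n φ x ↔ ∃ a : Fin n → A, x = Sum.inr ⟨n, a⟩ ∧ tr S' φ a := Iff.rfl

theorem std_q (n : ℕ) (t : Tm L n) (k : ℕ) (s : Tm L k) (x z : J' ⊕ W A) :
    q (std J' S') n t k s x z ↔ ∃ (a : Fin n → A) (b : Fin k → A), x = Sum.inr ⟨n, a⟩ ∧
      z = Sum.inr ⟨k, b⟩ ∧ tv S' t a = tv S' s b := Iff.rfl

theorem inr_inj {n : ℕ} {a b : Fin n → A} (h : (Sum.inr ⟨n, a⟩ : J' ⊕ W A) = Sum.inr ⟨n, b⟩) :
    a = b := by
  have h1 := Sum.inr_injective h
  simpa using h1

theorem inr_len {n m : ℕ} {a : Fin n → A} {b : Fin m → A}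
    (h : (Sum.inr ⟨n, a⟩ : J' ⊕ W A) = Sum.inr ⟨m, b⟩) : n = m := by
  have h1 := Sum.inr_injective h
  exact congrArg Sigma.fst h1

theorem std_U' {n : ℕ} {a : Fin n → A} : U (std J' S') n (Sum.inr ⟨n, a⟩) := ⟨a, rfl⟩

theorem std_V' {n : ℕ} {φ : L.BoundedFormula Empty n} {a : Fin n → A} :
    V (std J' S') n φ (Sum.inr ⟨n, a⟩) ↔ tr S' φ a := by
  rw [std_V]
  constructor
  · rintro ⟨b, hb, h⟩
    rw [inr_inj hb]
    exact h
  · intro h
    exact ⟨a, rfl, h⟩

theorem std_q' {n : ℕ} {t : Tm L n} {k : ℕ} {s : Tm L k} {a : Fin n → A} {b : Fin k → A} :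
    q (std J' S') n t k s (Sum.inr ⟨n, a⟩) (Sum.inr ⟨k, b⟩) ↔ tv S' t a = tv S' s b := by
  rw [std_q]
  constructor
  · rintro ⟨a', b', ha, hb, h⟩
    rw [inr_inj ha, inr_inj hb]
    exact h
  · intro h
    exact ⟨a, b, rfl, rfl, h⟩

theorem tv_vr {n : ℕ} (i : Fin n) (a : Fin n → A) : tv S' (vr i) a = a i := rfl

theorem std_good (T : Set L.Sentence) (hT : @Theory.Model L A S' T) :
    Good T (std J' S') where
  U_disj := by
    rintro n m hnm x ⟨a, rfl⟩ ⟨b, hb⟩
    exact hnm (inr_len hb)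
  U_zero := ⟨Sum.inr ⟨0, Fin.elim0⟩, Fin.elim0, rfl⟩
  q_dom1 := by
    rintro n i k j x z ⟨a, b, rfl, rfl, _⟩
    exact ⟨a, rfl⟩
  V_dom := by
    rintro n φ x ⟨a, rfl, _⟩
    exact ⟨a, rfl⟩
  q_refl := by
    rintro n i x ⟨a, rfl⟩
    exact ⟨a, a, rfl, rfl, rfl⟩
  q_symm := by
    rintro n i k j x z ⟨a, b, rfl, rfl, h⟩
    exact ⟨b, a, rfl, rfl, h.symm⟩
  q_trans := by
    rintro n i k j l m x z w ⟨a, b, rfl, rfl, h⟩ ⟨b', c, hb, rfl, h'⟩
    obtain rfl := inr_inj hb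
    exact ⟨a, c, rfl, rfl, h.trans h'⟩
  q_one := by
    rintro n i x ⟨a, rfl⟩
    exact ⟨Sum.inr ⟨1, fun _ => tv S' i a⟩, a, _, rfl, rfl, rfl⟩
  ext := by
    rintro n x y ⟨a, rfl⟩ ⟨b, rfl⟩
    refine ⟨Sum.inr ⟨n + 1, Fin.snoc a (b 0)⟩, ⟨_, rfl⟩, fun i => ?_, ?_⟩
    · rw [std_q', tv_vr, tv_vr, Fin.snoc_castSucc]
    · rw [std_q', tv_vr, tv_vr, Fin.snoc_last]
  uniq := by
    rintro n x z ⟨a, rfl⟩ ⟨b, rfl⟩ hq
    congr 2
    funext i
    exact (std_q' S').1 (hq i)
  sub := by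
    rintro n k F ts x z ⟨a, rfl⟩ ⟨b, rfl⟩ hq
    rw [std_q']
    change @Structure.funMap L A S' k F (fun j => tv S' (ts j) a) =
      @Structure.funMap L A S' k F (fun j => tv S' (vr j) b)
    congr 1
    funext j
    exact (std_q' S').1 (hq j)
  V_bot := by
    rintro n x ⟨a, rfl, h⟩
    exact h
  V_imp := by
    rintro n φ ψ x ⟨a, rfl⟩
    rw [std_V', std_V', std_V']
    exact Iff.rfl
  V_all1 := by
    rintro n φ x z ⟨a, rfl, h1⟩ ⟨b, rfl⟩ hq
    have h2 : b = Fin.snoc a (b (Fin.last n)) := by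
      funext i
      refine Fin.lastCases ?_ (fun i => ?_) i
      · rw [Fin.snoc_last]
      · rw [Fin.snoc_castSucc]
        exact ((std_q' S').1 (hq i)).symm
    rw [std_V', h2]
    exact h1 _
  V_all2 := by
    rintro n φ x ⟨a, rfl⟩ h1
    have h2 : ∃ b, ¬ tr S' φ (Fin.snoc a b) := by
      by_contra hcon
      push Not at hcon
      exact h1 ⟨a, rfl, hcon⟩
    obtain ⟨b, hb⟩ := h2
    refine ⟨Sum.inr ⟨n + 1, Fin.snoc a b⟩, ⟨_, rfl⟩, fun i => ?_, ?_⟩
    · rw [std_q', tv_vr, tv_vr, Fin.snoc_castSucc]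
    · rw [std_V']
      exact hb
  V_eq := by
    rintro n i j x ⟨a, rfl⟩
    rw [std_V', std_q']
    exact Iff.rfl
  V_rel := by
    rintro n k R s x z ⟨a, rfl⟩ ⟨b, rfl⟩ hq
    have h1 : b = fun j => tv S' (s j) a := funext fun j => ((std_q' S').1 (hq j)).symm
    rw [std_V', std_V', h1]
    exact Iff.rfl
  V_T := by
    rintro σ hσ x ⟨a, rfl⟩
    refine ⟨a, rfl, ?_⟩
    have h1 := @Theory.realize_sentence_of_mem L A S' T hT σ hσ
    have h2 : @BoundedFormula.Realize L A S' Empty 0 σ default default := h1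
    have e1 : (default : Empty → A) = Empty.elim := Subsingleton.elim _ _
    have e2 : (default : Fin 0 → A) = a := Subsingleton.elim _ _
    rw [e1, e2] at h2
    exact h2

end std

end Pool.Agent.Run7.h271.TV
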