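import Pool.Agent.Run7.h271.TV.Dec

/-!
Isomorphisms between the models of the axioms for tuples and the decoded structures.
-/

set_option autoImplicit false

namespace Pool.Agent.Run7.h271.TV

open FirstOrder FirstOrder.Language

/-- the structures are isomorphic -/
def Iso {L : FirstOrder.Language.{0, 0}} {M N : Type} (S : L.Structure M) (S' : L.Structure N) :
    Prop := Nonempty (@Language.Equiv L M N S S')

section iso

variable {L : FirstOrder.Language.{0, 0}} {M N P : Type} {S : L.Structure M} {S' : L.Structure N}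
  {S'' : L.Structure P}

theorem Iso.symm (h : Iso S S') : Iso S' S := by
  obtain ⟨e⟩ := h
  exact ⟨@Language.Equiv.symm L M N S S' e⟩

theorem Iso.trans (h : Iso S S') (h' : Iso S' S'') : Iso S S'' := by
  obtain ⟨e⟩ := h
  obtain ⟨f⟩ := h'
  exact ⟨@Language.Equiv.comp L M N S S' P S'' f e⟩

theorem iso_model (h : Iso S S') (T : L.Theory) (hT : @Theory.Model L M S T) :
    @Theory.Model L N S' T := by
  obtain ⟨e⟩ := h
  exact @StrongHomClass.theory_model L M N S S' T _ _ _ e hT

theorem iso_induced (e : M ≃ N) : Iso S (@Equiv.inducedStructure L M N S e) :=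
  ⟨@Equiv.inducedStructureEquiv L M N S e⟩

end iso

variable {L : FirstOrder.Language.{0, 0}} {M N : Type} {T T' : Set L.Sentence}
  {S : (Ls L).Structure M} {S' : (Ls L).Structure N}

/-- the bijection respects the relations -/
structure Pre (S : (Ls L).Structure M) (S' : (Ls L).Structure N) (e : M ≃ N) : Prop where
  U : ∀ n x, U S' n (e x) ↔ U S n x
  V : ∀ n φ x, V S' n φ (e x) ↔ V S n φ x
  q : ∀ n t k s x z, q S' n t k s (e x) (e z) ↔ q S n t k s x z

theorem iso_iff : Iso S S' ↔ ∃ e, Pre S S' e := by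
  constructor
  · rintro ⟨g⟩
    have h := fun {n : ℕ} (R : (Ls L).Relations n) (x : Fin n → M) =>
      @Language.Equiv.map_rel (Ls L) M N S S' g n R x
    refine ⟨@Language.Equiv.toEquiv (Ls L) M N S S' g, fun n x => ?_, fun n φ x => ?_,
      fun n t k s x z => ?_⟩
    · have h1 := h (n := 1) (R1.U n : R1 L) ![x]
      unfold TV.U
      rw [← h1]
      refine Iff.of_eq (congrArg _ ?_)
      funext i
      fin_cases i
      rfl
    · have h1 := h (n := 1) (R1.V n φ : R1 L) ![x]
      unfold TV.V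
      rw [← h1]
      refine Iff.of_eq (congrArg _ ?_)
      funext i
      fin_cases i
      rfl
    · have h1 := h (n := 2) (R2.q n t k s : R2 L) ![x, z]
      unfold TV.q
      rw [← h1]
      refine Iff.of_eq (congrArg _ ?_)
      funext i
      fin_cases i <;> rfl
  · rintro ⟨e, he⟩
    refine ⟨@Language.Equiv.mk (Ls L) M N S S' e (fun {n} F x => ?_) (fun {n} R x => ?_)⟩
    · exact (F : Empty).elim
    · match n, R, x with
      | 1, R, x =>
        have hx : x = ![x 0] := by
          funext i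
          fin_cases i
          rfl
        have hex : (e ∘ x) = ![e (x 0)] := by
          funext i
          fin_cases i
          rfl
        change @Structure.RelMap (Ls L) N S' 1 R (e ∘ x) ↔ @Structure.RelMap (Ls L) M S 1 R x
        rw [hex]
        rw [hx]
        match R with
        | R1.U n => exact he.U n (x 0)
        | R1.V n φ => exact he.V n φ (x 0)
      | 2, R, x =>
        have hx : x = ![x 0, x 1] := by
          funext i
          fin_cases i <;> rfl
        have hex : (e ∘ x) = ![e (x 0), e (x 1)] := by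
          funext i
          fin_cases i <;> rfl
        change @Structure.RelMap (Ls L) N S' 2 R (e ∘ x) ↔ @Structure.RelMap (Ls L) M S 2 R x
        rw [hex]
        rw [hx]
        match R with
        | R2.q n t k s => exact he.q n t k s (x 0) (x 1)

/-! ### isomorphic models have isomorphic decoded structures -/

theorem Pre.tup {e : M ≃ N} (he : Pre S S' e) {n : ℕ} (x : M) (a : Fin n → D S)
    (b : Fin n → D S') (hb : ∀ i, (b i).1 = e (a i).1) : IsTup S' (e x) b ↔ IsTup S x a := by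
  unfold IsTup
  rw [he.U]
  refine and_congr_right fun _ => forall_congr' fun i => ?_
  unfold val
  rw [hb i, he.q]

theorem dec_iso (h : Good T S) (h' : Good T' S') (hS : Iso S S') : Iso (dec h) (dec h') := by
  obtain ⟨e, he⟩ := iso_iff.1 hS
  let ε : D S ≃ D S' := e.subtypeEquiv fun y => (he.U 1 y).symm
  have hε : ∀ y, (ε y).1 = e y.1 := fun y => rfl
  refine ⟨@Language.Equiv.mk L _ _ (dec h) (dec h') ε (fun {n} F x => ?_) (fun {n} R x => ?_)⟩
  · change ε (@Structure.funMap L (D S) (dec h) n F x) =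
      @Structure.funMap L (D S') (dec h') n F (ε ∘ x)
    obtain ⟨z, hz, hy⟩ := (dec_fun h F x _).1 rfl
    symm
    refine (dec_fun h' F _ _).2 ⟨e z, (he.tup z x _ fun i => rfl).2 hz, ?_⟩
    exact (he.q _ _ _ _ _ _).2 hy
  · change (∃ z, IsTup S' z (ε ∘ x) ∧ V S' n (rl R) z) ↔ ∃ z, IsTup S z x ∧ V S n (rl R) z
    constructor
    · rintro ⟨z, hz, h1⟩
      obtain ⟨z, rfl⟩ := e.surjective z
      exact ⟨z, (he.tup z x _ fun i => rfl).1 hz, (he.V _ _ _).1 h1⟩
    · rintro ⟨z, hz, h1⟩
      exact ⟨e z, (he.tup z x _ fun i => rfl).2 hz, (he.V _ _ _).2 h1⟩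

/-! ### every model is standard -/

theorem iso_std (h : Good T S) : Iso (std (J S) (dec h)) S := by
  have hex : ∀ (p : W (D S)), ∃ x, IsTup S x p.2 := fun p => h.tup_ex _ _
  choose tup htup using hex
  let F : J S ⊕ W (D S) → M := Sum.elim Subtype.val tup
  have hF : Function.Bijective F := by
    constructor
    · rintro (j | ⟨n, a⟩) (j' | ⟨m, b⟩) hab
      · have h1 : j.1 = j'.1 := hab
        exact congrArg Sum.inl (Subtype.ext h1)
      · have h1 : j.1 = tup ⟨m, b⟩ := hab
        exact (j.2 m (by rw [h1]; exact (htup ⟨m, b⟩).1)).elim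
      · have h1 : tup ⟨n, a⟩ = j'.1 := hab
        exact (j'.2 n (by rw [← h1]; exact (htup ⟨n, a⟩).1)).elim
      · have h1 : tup ⟨n, a⟩ = tup ⟨m, b⟩ := hab
        have h2 : n = m := by
          by_contra hne
          exact h.U_disj n m hne _ (htup ⟨n, a⟩).1 (by rw [h1]; exact (htup ⟨m, b⟩).1)
        subst h2
        have h3 : a = b := by
          funext i
          refine h.co_uniq ((htup ⟨n, a⟩).2 i) ?_
          rw [h1]
          exact (htup ⟨n, b⟩).2 i
        rw [h3]
    · intro x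
      by_cases hx : ∀ n, ¬ U S n x
      · exact ⟨Sum.inl ⟨x, hx⟩, rfl⟩
      · push Not at hx
        obtain ⟨n, hn⟩ := hx
        have hc := fun i : Fin n => h.co_ex (vr i) hn
        choose a ha using hc
        exact ⟨Sum.inr ⟨n, a⟩, h.tup_uniq (htup ⟨n, a⟩) ⟨hn, ha⟩⟩
  have hlen : ∀ (n : ℕ) (w : J S ⊕ W (D S)), U S n (F w) →
      ∃ a : Fin n → D S, w = Sum.inr ⟨n, a⟩ := by
    rintro n (j | ⟨m, b⟩) hU
    · exact (j.2 n hU).elim
    · have h2 : n = m := by
        by_contra hne
        exact h.U_disj n m hne _ hU (htup ⟨m, b⟩).1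
      subst h2
      exact ⟨b, rfl⟩
  have hF2 : ∀ {n : ℕ} (a : Fin n → D S), IsTup S (F (Sum.inr ⟨n, a⟩)) a := fun a =>
    htup ⟨_, a⟩
  refine iso_iff.2 ⟨Equiv.ofBijective F hF, fun n w => ?_, fun n φ w => ?_,
    fun n t k s w w' => ?_⟩
  · change U S n (F w) ↔ _
    constructor
    · intro hU
      exact hlen n w hU
    · rintro ⟨a, rfl⟩
      exact (hF2 a).1
  · change V S n φ (F w) ↔ _
    constructor
    · intro hV
      obtain ⟨a, rfl⟩ := hlen n w (h.V_dom _ _ _ hV)
      rw [std_V']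
      exact (truth h φ _ a _ (hF2 a)).1 hV
    · rintro ⟨a, rfl, h1⟩
      exact (truth h φ _ a _ (hF2 a)).2 h1
  · change q S n t k s (F w) (F w') ↔ _
    constructor
    · intro hq
      obtain ⟨a, rfl⟩ := hlen n w (h.q_dom1 _ _ _ _ _ _ hq)
      obtain ⟨b, rfl⟩ := hlen k w' (h.q_dom2 hq)
      rw [std_q']
      exact (h.q_iff (term_val h (hF2 a) _ t) (term_val h (hF2 b) _ s)).1 hq
    · rintro ⟨a, b, rfl, rfl, h1⟩
      exact (h.q_iff (term_val h (hF2 a) _ t) (term_val h (hF2 b) _ s)).2 h1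

/-! ### the standard models -/

section std

variable {A B : Type} {SA : L.Structure A} {SB : L.Structure B} {J₁ J₂ : Type}

theorem tv_map (g : @Language.Equiv L A B SA SB) {n : ℕ} (t : Tm L n) (a : Fin n → A) :
    tv SB t (fun i => g (a i)) = g (tv SA t a) := by
  have h1 := @HomClass.realize_term L A B SA SB _ _ _ _ g t (Sum.elim Empty.elim a)
  unfold tv
  rw [← h1]
  congr 1
  funext x
  rcases x with x | x
  · exact x.elim
  · rfl

theorem tr_map (g : @Language.Equiv L A B SA SB) {n : ℕ} (φ : L.BoundedFormula Empty n)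
    (a : Fin n → A) : tr SB φ (fun i => g (a i)) ↔ tr SA φ a := by
  have h1 := @StrongHomClass.realize_boundedFormula L A B SA SB _ _ _ _ _ g φ Empty.elim a
  unfold tr
  rw [← h1]
  refine Iff.of_eq ?_
  congr 1
  exact Subsingleton.elim _ _

theorem std_iso (h : Iso SA SB) (hJ : Nonempty (J₁ ≃ J₂)) : Iso (std J₁ SA) (std J₂ SB) := by
  obtain ⟨g⟩ := h
  obtain ⟨eJ⟩ := hJ
  let e : J₁ ⊕ W A ≃ J₂ ⊕ W B := Equiv.sumCongr eJ
    (Equiv.sigmaCongrRight fun n => (Equiv.refl (Fin n)).arrowCongr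
      (@Language.Equiv.toEquiv L A B SA SB g))
  have he1 : ∀ {n : ℕ} (a : Fin n → A), e (Sum.inr ⟨n, a⟩) = Sum.inr ⟨n, fun i => g (a i)⟩ :=
    fun a => rfl
  have he2 : ∀ (w : J₁ ⊕ W A) {n : ℕ} (b : Fin n → B), e w = Sum.inr ⟨n, b⟩ →
      ∃ a : Fin n → A, w = Sum.inr ⟨n, a⟩ := by
    rintro (j | ⟨m, a⟩) n b hw
    · cases hw
    · have h2 : m = n := inr_len ((he1 a).symm.trans hw)
      subst h2
      exact ⟨a, rfl⟩
  refine iso_iff.2 ⟨e, fun n w => ?_, fun n φ w => ?_, fun n t k s w w' => ?_⟩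
  · constructor
    · rintro ⟨b, hb⟩
      exact he2 w b hb
    · rintro ⟨a, rfl⟩
      exact ⟨_, he1 a⟩
  · constructor
    · rintro ⟨b, hb, hV⟩
      obtain ⟨a, rfl⟩ := he2 w b hb
      rw [std_V', ← tr_map g]
      rw [he1] at hb
      rw [inr_inj hb]
      exact hV
    · rintro ⟨a, rfl, hV⟩
      rw [he1, std_V', tr_map g]
      exact hV
  · constructor
    · rintro ⟨b, b', hb, hb', hq⟩
      have hb1 : e w = Sum.inr ⟨n, b⟩ := hb
      have hb2 : e w' = Sum.inr ⟨k, b'⟩ := hb'
      obtain ⟨a, rfl⟩ := he2 w b hb1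
      obtain ⟨a', rfl⟩ := he2 w' b' hb2
      have hb3 := inr_inj ((he1 a).symm.trans hb1)
      have hb4 := inr_inj ((he1 a').symm.trans hb2)
      rw [std_q']
      rw [← hb3, ← hb4, tv_map, tv_map] at hq
      exact (@Language.Equiv.toEquiv L A B SA SB g).injective hq
    · rintro ⟨a, a', rfl, rfl, hq⟩
      rw [he1, he1, std_q', tv_map, tv_map, hq]

theorem std_dec {T : Set L.Sentence} (h : Good T (std J₁ SA)) : Iso SA (dec h) := by
  let ι : A → D (std J₁ SA) := fun c => ⟨Sum.inr ⟨1, fun _ => c⟩, fun _ => c, rfl⟩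
  have hι : Function.Bijective ι := by
    constructor
    · intro c c' hc
      have h1 : (Sum.inr ⟨1, fun _ => c⟩ : J₁ ⊕ W A) = Sum.inr ⟨1, fun _ => c'⟩ :=
        congrArg Subtype.val hc
      exact congrFun (inr_inj h1) 0
    · rintro ⟨y, hy⟩
      obtain ⟨a, ha⟩ := hy
      have ha' : y = Sum.inr ⟨1, a⟩ := ha
      subst ha'
      refine ⟨a 0, Subtype.ext ?_⟩
      change (Sum.inr ⟨1, fun _ => a 0⟩ : J₁ ⊕ W A) = Sum.inr ⟨1, a⟩
      congr 2
      funext i
      rw [Subsingleton.elim i 0]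
  have htup : ∀ {n : ℕ} (a : Fin n → A), IsTup (std J₁ SA) (Sum.inr ⟨n, a⟩) (fun i => ι (a i)) :=
    fun {n} a => ⟨⟨a, rfl⟩, fun i => (std_q' SA).2 rfl⟩
  let ε : A ≃ D (std J₁ SA) := Equiv.ofBijective ι hι
  refine ⟨@Language.Equiv.mk L _ _ SA (dec h) ε (fun {n} F x => ?_) (fun {n} R x => ?_)⟩
  · change ι (@Structure.funMap L A SA n F x) =
      @Structure.funMap L (D (std J₁ SA)) (dec h) n F (fun i => ι (x i))
    symm
    refine (dec_fun h F _ _).2 ⟨_, htup x, ?_⟩
    exact (std_q' SA).2 rfl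
  · change (∃ z, IsTup (std J₁ SA) z (fun i => ι (x i)) ∧ V (std J₁ SA) n (rl R) z) ↔
      @Structure.RelMap L A SA n R x
    constructor
    · rintro ⟨z, hz, h1⟩
      rw [h.tup_uniq hz (htup x), std_V'] at h1
      exact h1
    · intro h1
      exact ⟨_, htup x, (std_V' SA).2 h1⟩

end std

theorem iso_of_dec (h : Good T S) (h' : Good T' S') (hd : Iso (dec h) (dec h'))
    (hJ : Nonempty (J S ≃ J S')) : Iso S S' :=
  (iso_std h).symm.trans ((std_iso hd hJ).trans (iso_std h'))

end Pool.Agent.Run7.h271.TV
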