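import Mathlib

/-!
The language for the tuples of the elements of a structure, and its axioms of the forms
`∀ x ∀ y ∀ z θ` and `∀ x ∀ y ∃ z θ`.
-/

set_option autoImplicit false

namespace Pool.Agent.Run7.h271.TV

open FirstOrder FirstOrder.Language

/-! ### quantifier-free formulas in three variables -/

section QF

/-- quantifier-free formulas in three variables and in unary and binary relation symbols -/
inductive Q3 (L : FirstOrder.Language.{0, 0}) : Type
  | bot : Q3 L
  | eq (i j : Fin 3) : Q3 L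
  | r1 (R : L.Relations 1) (i : Fin 3) : Q3 L
  | r2 (R : L.Relations 2) (i j : Fin 3) : Q3 L
  | imp (a b : Q3 L) : Q3 L

variable {L : FirstOrder.Language.{0, 0}}

namespace Q3

/-- the formula -/
def toB : Q3 L → L.BoundedFormula Empty 3
  | bot => ⊥
  | eq i j => (Term.var (Sum.inr i) : L.Term (Empty ⊕ Fin 3)).bdEqual (Term.var (Sum.inr j))
  | r1 R i => R.boundedFormula₁ (Term.var (Sum.inr i))
  | r2 R i j => R.boundedFormula₂ (Term.var (Sum.inr i)) (Term.var (Sum.inr j))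
  | imp a b => a.toB.imp b.toB

theorem toB_qf : ∀ θ : Q3 L, θ.toB.IsQF
  | bot => BoundedFormula.IsQF.falsum
  | eq _ _ => (BoundedFormula.IsAtomic.equal _ _).isQF
  | r1 _ _ => (BoundedFormula.IsAtomic.rel _ _).isQF
  | r2 _ _ _ => (BoundedFormula.IsAtomic.rel _ _).isQF
  | imp a b => (toB_qf a).imp (toB_qf b)

/-- truth -/
def ev {M : Type} (S : L.Structure M) (a : Fin 3 → M) : Q3 L → Prop
  | bot => False
  | eq i j => a i = a j
  | r1 R i => @Structure.RelMap L M S 1 R ![a i]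
  | r2 R i j => @Structure.RelMap L M S 2 R ![a i, a j]
  | imp x y => x.ev S a → y.ev S a

theorem realize_toB {M : Type} (S : L.Structure M) (v : Empty → M) (a : Fin 3 → M) :
    ∀ θ : Q3 L, (@BoundedFormula.Realize L M S Empty 3 θ.toB v a ↔ θ.ev S a)
  | bot => by
    simp only [toB, ev]
    exact @BoundedFormula.realize_bot L M S Empty 3 v a
  | eq i j => by
    simp only [toB, ev]
    rw [@BoundedFormula.realize_bdEqual L M S]
    exact Iff.rfl
  | r1 R i => by
    simp only [toB, ev]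
    rw [@BoundedFormula.realize_rel₁ L M S]
    exact Iff.rfl
  | r2 R i j => by
    simp only [toB, ev]
    rw [@BoundedFormula.realize_rel₂ L M S]
    exact Iff.rfl
  | imp x y => by
    simp only [toB, ev]
    rw [@BoundedFormula.realize_imp L M S, realize_toB S v a x, realize_toB S v a y]

/-- negation -/
def neg (x : Q3 L) : Q3 L := x.imp bot

/-- conjunction -/
def and (x y : Q3 L) : Q3 L := (x.imp y.neg).neg

/-- conjunction of a list -/
def conj : List (Q3 L) → Q3 L
  | [] => neg bot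
  | x :: l => and x (conj l)

variable {M : Type} (S : L.Structure M) (a : Fin 3 → M)

theorem ev_neg (x : Q3 L) : x.neg.ev S a ↔ ¬ x.ev S a := Iff.rfl

theorem ev_and (x y : Q3 L) : (x.and y).ev S a ↔ x.ev S a ∧ y.ev S a := by
  unfold and
  rw [ev_neg]
  change ¬ (x.ev S a → ¬ y.ev S a) ↔ _
  tauto

theorem ev_conj : ∀ l : List (Q3 L), ((conj l).ev S a ↔ ∀ x ∈ l, x.ev S a)
  | [] => by simp [conj, neg, ev]
  | x :: l => by
    rw [conj, ev_and, ev_conj l]
    simp

end Q3

/-- the closure of a quantifier-free formula by `∀ ∀ ∀` (for `true`) or `∀ ∀ ∃` (for `false`) -/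
def cl : Bool → Q3 L → L.Sentence
  | true, θ => θ.toB.all.all.all
  | false, θ => θ.toB.ex.all.all

/-- truth of the closure -/
def holds {M : Type} (S : L.Structure M) : Bool → Q3 L → Prop
  | true, θ => ∀ x y z : M, θ.ev S ![x, y, z]
  | false, θ => ∀ x y : M, ∃ z : M, θ.ev S ![x, y, z]

theorem snoc3 {M : Type} (x y z : M) (v : Fin 0 → M) :
    (Fin.snoc (Fin.snoc (Fin.snoc v x : Fin 1 → M) y : Fin 2 → M) z : Fin 3 → M) = ![x, y, z] := by
  funext i
  fin_cases i <;> rfl

theorem realize_cl {M : Type} (S : L.Structure M) (b : Bool) (θ : Q3 L) :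
    @Sentence.Realize L M S (cl b θ) ↔ holds S b θ := by
  cases b
  · change (@BoundedFormula.Realize L M S Empty 0 θ.toB.ex.all.all _ _) ↔ _
    rw [@BoundedFormula.realize_all L M S]
    refine forall_congr' fun x => ?_
    rw [@BoundedFormula.realize_all L M S]
    refine forall_congr' fun y => ?_
    rw [@BoundedFormula.realize_ex L M S]
    refine exists_congr fun z => ?_
    rw [Q3.realize_toB, snoc3]
  · change (@BoundedFormula.Realize L M S Empty 0 θ.toB.all.all.all _ _) ↔ _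
    rw [@BoundedFormula.realize_all L M S]
    refine forall_congr' fun x => ?_
    rw [@BoundedFormula.realize_all L M S]
    refine forall_congr' fun y => ?_
    rw [@BoundedFormula.realize_all L M S]
    refine forall_congr' fun z => ?_
    rw [Q3.realize_toB, snoc3]

end QF

/-! ### the language of tuples -/

section tuples

variable (L : FirstOrder.Language.{0, 0})

/-- the terms in `n` variables -/
abbrev Tm (n : ℕ) : Type := L.Term (Empty ⊕ Fin n)

/-- the unary symbols: length `n`, and truth of formulas with `n` free variables -/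
inductive R1 : Type
  | U (n : ℕ) : R1
  | V (n : ℕ) (φ : L.BoundedFormula Empty n) : R1

/-- the binary symbols: equality of values of terms -/
inductive R2 : Type
  | q (n : ℕ) (t : Tm L n) (k : ℕ) (s : Tm L k) : R2

/-- the relation symbols -/
def Rels : ℕ → Type
  | 1 => R1 L
  | 2 => R2 L
  | _ => Empty

/-- the language of tuples -/
def Ls : FirstOrder.Language.{0, 0} := ⟨fun _ => Empty, Rels L⟩

theorem Ls_rel : (Ls L).IsRelational := fun _ => inferInstanceAs (IsEmpty Empty)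

theorem Ls_arity (n : ℕ) (h1 : n ≠ 1) (h2 : n ≠ 2) : IsEmpty ((Ls L).Relations n) := by
  change IsEmpty (Rels L n)
  match n, h1, h2 with
  | 0, _, _ => exact inferInstanceAs (IsEmpty Empty)
  | n + 3, _, _ => exact inferInstanceAs (IsEmpty Empty)

theorem countable_forms (hL : Countable L.Symbols) : Countable (Σ n, L.BoundedFormula Empty n) := by
  have h1 : Cardinal.mk (Σ n, L.BoundedFormula Empty n) ≤ Cardinal.aleph0 := by
    refine FirstOrder.Language.BoundedFormula.card_le.trans ?_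
    simp only [max_le_iff, le_refl, true_and]
    have : L.card ≤ Cardinal.aleph0 := Cardinal.mk_le_aleph0_iff.2 hL
    simpa using this
  exact Cardinal.mk_le_aleph0_iff.1 h1

theorem countable_terms (hL : Countable L.Symbols) : Countable (Σ n, Tm L n) := by
  have h0 : Countable (Σ i, L.Functions i) := by
    have hi : Function.Injective (fun p : (Σ i, L.Functions i) => (Sum.inl p : L.Symbols)) :=
      Sum.inl_injective
    exact hi.countable
  have h1 : Cardinal.mk (Σ n, Tm L n) ≤ Cardinal.aleph0 := by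
    refine (le_of_eq FirstOrder.Language.Term.card_sigma).trans ?_
    rw [max_le_iff]
    exact ⟨le_rfl, Cardinal.mk_le_aleph0_iff.2 inferInstance⟩
  exact Cardinal.mk_le_aleph0_iff.1 h1

theorem Ls_countable (hL : Countable L.Symbols) : Countable (Ls L).Symbols := by
  have h0 := countable_forms L hL
  have h0' := countable_terms L hL
  have h1 : Countable (R1 L) := by
    have hs : Function.Surjective (fun t : ℕ ⊕ (Σ n, L.BoundedFormula Empty n) =>
        (Sum.elim (fun n => R1.U n) (fun p => R1.V p.1 p.2) t : R1 L)) := by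
      intro R
      cases R with
      | U n => exact ⟨Sum.inl n, rfl⟩
      | V n φ => exact ⟨Sum.inr ⟨n, φ⟩, rfl⟩
    exact hs.countable
  have h2 : Countable (R2 L) := by
    have hs : Function.Surjective (fun t : (Σ n, Tm L n) × (Σ n, Tm L n) =>
        (R2.q t.1.1 t.1.2 t.2.1 t.2.2 : R2 L)) := by
      intro R
      cases R with
      | q n i k j => exact ⟨⟨⟨n, i⟩, ⟨k, j⟩⟩, rfl⟩
    exact hs.countable
  have h3 : ∀ n, Countable (Rels L n) := by
    intro n
    match n with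
    | 0 => exact inferInstanceAs (Countable Empty)
    | 1 => exact h1
    | 2 => exact h2
    | n + 3 => exact inferInstanceAs (Countable Empty)
  have h4 : Countable (Σ n, Rels L n) := inferInstance
  have h5 : Countable (Σ _ : ℕ, Empty) := inferInstance
  exact inferInstanceAs (Countable ((Σ _ : ℕ, Empty) ⊕ (Σ n, Rels L n)))

end tuples

section good

variable {L : FirstOrder.Language.{0, 0}} {M : Type}

/-- length `n` -/
def U (S : (Ls L).Structure M) (n : ℕ) (x : M) : Prop :=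
  @Structure.RelMap (Ls L) M S 1 (R1.U n : R1 L) ![x]

/-- truth of `φ` -/
def V (S : (Ls L).Structure M) (n : ℕ) (φ : L.BoundedFormula Empty n) (x : M) : Prop :=
  @Structure.RelMap (Ls L) M S 1 (R1.V n φ : R1 L) ![x]

/-- equality of values of terms -/
def q (S : (Ls L).Structure M) (n : ℕ) (t : Tm L n) (k : ℕ) (s : Tm L k) (x z : M) : Prop :=
  @Structure.RelMap (Ls L) M S 2 (R2.q n t k s : R2 L) ![x, z]

/-- the variable with index `i` -/
abbrev vr {n : ℕ} (i : Fin n) : Tm L n := Term.var (Sum.inr i)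

/-- the atomic formula `R(x_0, ..., x_(k-1))` -/
abbrev rl {k : ℕ} (R : L.Relations k) : L.BoundedFormula Empty k :=
  BoundedFormula.rel R fun j => vr j

/-- the axioms, as properties of structures -/
structure Good (T : Set L.Sentence) (S : (Ls L).Structure M) : Prop where
  U_disj : ∀ (n m : ℕ), n ≠ m → ∀ x, U S n x → ¬ U S m x
  U_zero : ∃ x, U S 0 x
  q_dom1 : ∀ (n : ℕ) (i : Tm L n) (k : ℕ) (j : Tm L k) (x z), q S n i k j x z → U S n x
  V_dom : ∀ (n : ℕ) (φ : L.BoundedFormula Empty n) (x), V S n φ x → U S n x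
  q_refl : ∀ (n : ℕ) (i : Tm L n) (x), U S n x → q S n i n i x x
  q_symm : ∀ (n : ℕ) (i : Tm L n) (k : ℕ) (j : Tm L k) (x z), q S n i k j x z → q S k j n i z x
  q_trans : ∀ (n : ℕ) (i : Tm L n) (k : ℕ) (j : Tm L k) (l : ℕ) (m : Tm L l) (x z w),
    q S n i k j x z → q S k j l m z w → q S n i l m x w
  q_one : ∀ (n : ℕ) (i : Tm L n) (x), U S n x → ∃ y, q S n i 1 (vr 0) x y
  ext : ∀ (n : ℕ) (x y), U S n x → U S 1 y → ∃ z, U S (n + 1) z ∧
    (∀ i : Fin n, q S n (vr i) (n + 1) (vr i.castSucc) x z) ∧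
      q S (n + 1) (vr (Fin.last n)) 1 (vr 0) z y
  uniq : ∀ (n : ℕ) (x z), U S n x → U S n z → (∀ i, q S n (vr i) n (vr i) x z) → x = z
  sub : ∀ (n k : ℕ) (F : L.Functions k) (ts : Fin k → Tm L n) (x z), U S n x → U S k z →
    (∀ j, q S n (ts j) k (vr j) x z) → q S n (Term.func F ts) k (Term.func F fun j => vr j) x z
  V_bot : ∀ (n : ℕ) (x), ¬ V S n (BoundedFormula.falsum) x
  V_imp : ∀ (n : ℕ) (φ ψ : L.BoundedFormula Empty n) (x), U S n x →
    (V S n (φ.imp ψ) x ↔ (V S n φ x → V S n ψ x))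
  V_all1 : ∀ (n : ℕ) (φ : L.BoundedFormula Empty (n + 1)) (x z), V S n φ.all x → U S (n + 1) z →
    (∀ i : Fin n, q S n (vr i) (n + 1) (vr i.castSucc) x z) → V S (n + 1) φ z
  V_all2 : ∀ (n : ℕ) (φ : L.BoundedFormula Empty (n + 1)) (x), U S n x → ¬ V S n φ.all x →
    ∃ z, U S (n + 1) z ∧ (∀ i : Fin n, q S n (vr i) (n + 1) (vr i.castSucc) x z) ∧
      ¬ V S (n + 1) φ z
  V_eq : ∀ (n : ℕ) (i j : Tm L n) (x), U S n x →
    (V S n (BoundedFormula.equal i j) x ↔ q S n i n j x x)
  V_rel : ∀ (n k : ℕ) (R : L.Relations k) (ts : Fin k → Tm L n) (x z), U S n x → U S k z →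
    (∀ j, q S n (ts j) k (vr j) x z) → (V S n (BoundedFormula.rel R ts) x ↔ V S k (rl R) z)
  V_T : ∀ σ ∈ T, ∀ x, U S 0 x → V S 0 σ x

/-- atoms -/
def aU (n : ℕ) (i : Fin 3) : Q3 (Ls L) := Q3.r1 (R1.U n : R1 L) i

/-- atoms -/
def aV (n : ℕ) (φ : L.BoundedFormula Empty n) (i : Fin 3) : Q3 (Ls L) := Q3.r1 (R1.V n φ : R1 L) i

/-- atoms -/
def aq (n : ℕ) (i : Tm L n) (k : ℕ) (j : Tm L k) (x z : Fin 3) : Q3 (Ls L) :=
  Q3.r2 (R2.q n i k j : R2 L) x z

/-- conjunction over a finite index -/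
def cj {n : ℕ} (f : Fin n → Q3 (Ls L)) : Q3 (Ls L) := Q3.conj (List.ofFn f)

theorem ev_cj (S : (Ls L).Structure M) (a : Fin 3 → M) {n : ℕ} (f : Fin n → Q3 (Ls L)) :
    (cj f).ev S a ↔ ∀ i, (f i).ev S a := by
  unfold cj
  rw [Q3.ev_conj]
  simp [List.mem_ofFn]

/-- the list of the axioms -/
inductive Ax (T : Set L.Sentence) : Bool → Q3 (Ls L) → Prop
  | U_disj (n m : ℕ) (h : n ≠ m) : Ax T true ((aU n 0).imp (aU m 0).neg)
  | U_zero : Ax T false (aU 0 2)
  | q_dom1 (n : ℕ) (i : Tm L n) (k : ℕ) (j : Tm L k) : Ax T true ((aq n i k j 0 1).imp (aU n 0))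
  | V_dom (n : ℕ) (φ : L.BoundedFormula Empty n) : Ax T true ((aV n φ 0).imp (aU n 0))
  | q_refl (n : ℕ) (i : Tm L n) : Ax T true ((aU n 0).imp (aq n i n i 0 0))
  | q_symm (n : ℕ) (i : Tm L n) (k : ℕ) (j : Tm L k) :
      Ax T true ((aq n i k j 0 1).imp (aq k j n i 1 0))
  | q_trans (n : ℕ) (i : Tm L n) (k : ℕ) (j : Tm L k) (l : ℕ) (m : Tm L l) :
      Ax T true ((aq n i k j 0 1).imp ((aq k j l m 1 2).imp (aq n i l m 0 2)))
  | q_one (n : ℕ) (i : Tm L n) : Ax T false ((aU n 0).imp (aq n i 1 (vr 0) 0 2))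
  | ext (n : ℕ) : Ax T false ((aU n 0).imp ((aU 1 1).imp ((aU (n + 1) 2).and
      ((cj fun i : Fin n => aq n (vr i) (n + 1) (vr i.castSucc) 0 2).and
        (aq (n + 1) (vr (Fin.last n)) 1 (vr 0) 2 1)))))
  | uniq (n : ℕ) : Ax T true ((aU n 0).imp ((aU n 1).imp
      ((cj fun i : Fin n => aq n (vr i) n (vr i) 0 1).imp (Q3.eq 0 1))))
  | sub (n k : ℕ) (F : L.Functions k) (ts : Fin k → Tm L n) :
      Ax T true ((aU n 0).imp ((aU k 1).imp ((cj fun j : Fin k => aq n (ts j) k (vr j) 0 1).imp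
        (aq n (Term.func F ts) k (Term.func F fun j => vr j) 0 1))))
  | V_bot (n : ℕ) : Ax T true (aV n BoundedFormula.falsum 0).neg
  | V_imp1 (n : ℕ) (φ ψ : L.BoundedFormula Empty n) :
      Ax T true ((aV n (φ.imp ψ) 0).imp ((aV n φ 0).imp (aV n ψ 0)))
  | V_imp2 (n : ℕ) (φ ψ : L.BoundedFormula Empty n) :
      Ax T true ((aU n 0).imp (((aV n φ 0).imp (aV n ψ 0)).imp (aV n (φ.imp ψ) 0)))
  | V_all1 (n : ℕ) (φ : L.BoundedFormula Empty (n + 1)) : Ax T true ((aV n φ.all 0).imp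
      ((aU (n + 1) 1).imp ((cj fun i : Fin n => aq n (vr i) (n + 1) (vr i.castSucc) 0 1).imp
        (aV (n + 1) φ 1))))
  | V_all2 (n : ℕ) (φ : L.BoundedFormula Empty (n + 1)) : Ax T false ((aU n 0).imp
      ((aV n φ.all 0).neg.imp ((aU (n + 1) 2).and
        ((cj fun i : Fin n => aq n (vr i) (n + 1) (vr i.castSucc) 0 2).and
          (aV (n + 1) φ 2).neg))))
  | V_eq1 (n : ℕ) (i j : Tm L n) :
      Ax T true ((aV n (BoundedFormula.equal i j) 0).imp (aq n i n j 0 0))
  | V_eq2 (n : ℕ) (i j : Tm L n) :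
      Ax T true ((aU n 0).imp ((aq n i n j 0 0).imp
        (aV n (BoundedFormula.equal i j) 0)))
  | V_rel1 (n k : ℕ) (R : L.Relations k) (ts : Fin k → Tm L n) :
      Ax T true ((aU n 0).imp ((aU k 1).imp ((cj fun j : Fin k => aq n (ts j) k (vr j) 0 1).imp
        ((aV n (BoundedFormula.rel R ts) 0).imp (aV k (rl R) 1)))))
  | V_rel2 (n k : ℕ) (R : L.Relations k) (ts : Fin k → Tm L n) :
      Ax T true ((aU n 0).imp ((aU k 1).imp ((cj fun j : Fin k => aq n (ts j) k (vr j) 0 1).imp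
        ((aV k (rl R) 1).imp (aV n (BoundedFormula.rel R ts) 0)))))
  | V_T (σ : L.Sentence) (h : σ ∈ T) : Ax T true ((aU 0 0).imp (aV 0 σ 0))

/-- the theory -/
def Ts (T : Set L.Sentence) : (Ls L).Theory := {σ | ∃ b θ, Ax T b θ ∧ cl b θ = σ}

theorem good_iff [Nonempty M] (T : Set L.Sentence) (S : (Ls L).Structure M) :
    (∀ b θ, Ax T b θ → holds S b θ) ↔ Good T S := by
  have tt : ∀ {θ : Q3 (Ls L)}, (∀ b θ, Ax T b θ → holds S b θ) → Ax T true θ →
      ∀ x y z : M, θ.ev S ![x, y, z] := fun {θ} h hA => h true θ hA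
  have ff : ∀ {θ : Q3 (Ls L)}, (∀ b θ, Ax T b θ → holds S b θ) → Ax T false θ →
      ∀ x y : M, ∃ z : M, θ.ev S ![x, y, z] := fun {θ} h hA => h false θ hA
  constructor
  · intro h
    refine ⟨?_, ?_, ?_, ?_, ?_, ?_, ?_, ?_, ?_, ?_, ?_, ?_, ?_, ?_, ?_, ?_, ?_, ?_⟩
    · intro n m hnm x
      exact tt h (Ax.U_disj n m hnm) x x x
    · obtain ⟨z, hz⟩ := ff h Ax.U_zero (Classical.arbitrary M) (Classical.arbitrary M)
      exact ⟨z, hz⟩
    · intro n i k j x z
      exact tt h (Ax.q_dom1 n i k j) x z z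
    · intro n φ x
      exact tt h (Ax.V_dom n φ) x x x
    · intro n i x
      exact tt h (Ax.q_refl n i) x x x
    · intro n i k j x z
      exact tt h (Ax.q_symm n i k j) x z z
    · intro n i k j l m x z w
      exact tt h (Ax.q_trans n i k j l m) x z w
    · intro n i x hx
      obtain ⟨z, hz⟩ := ff h (Ax.q_one n i) x x
      exact ⟨z, hz hx⟩
    · intro n x y hx hy
      obtain ⟨z, hz⟩ := ff h (Ax.ext n) x y
      have h1 := hz hx hy
      rw [Q3.ev_and, Q3.ev_and, ev_cj] at h1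
      exact ⟨z, h1⟩
    · intro n x z hx hz hq
      exact tt h (Ax.uniq n) x z z hx hz ((ev_cj S _ _).2 hq)
    · intro n k F ts x z hx hz hq
      exact tt h (Ax.sub n k F ts) x z z hx hz ((ev_cj S _ _).2 hq)
    · intro n x
      exact tt h (Ax.V_bot n) x x x
    · intro n φ ψ x hx
      exact ⟨tt h (Ax.V_imp1 n φ ψ) x x x, tt h (Ax.V_imp2 n φ ψ) x x x hx⟩
    · intro n φ x z hx hz hq
      exact tt h (Ax.V_all1 n φ) x z z hx hz ((ev_cj S _ _).2 hq)
    · intro n φ x hx hV
      obtain ⟨z, hz⟩ := ff h (Ax.V_all2 n φ) x x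
      have h1 := hz hx hV
      rw [Q3.ev_and, Q3.ev_and, ev_cj] at h1
      exact ⟨z, h1⟩
    · intro n i j x hx
      exact ⟨tt h (Ax.V_eq1 n i j) x x x, tt h (Ax.V_eq2 n i j) x x x hx⟩
    · intro n k R s x z hx hz hq
      exact ⟨tt h (Ax.V_rel1 n k R s) x z z hx hz ((ev_cj S _ _).2 hq),
        tt h (Ax.V_rel2 n k R s) x z z hx hz ((ev_cj S _ _).2 hq)⟩
    · intro σ hσ x
      exact tt h (Ax.V_T σ hσ) x x x
  · intro h b θ hA
    cases hA with
    | U_disj n m hnm => exact fun x _ _ => h.U_disj n m hnm x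
    | U_zero => exact fun _ _ => h.U_zero
    | q_dom1 n i k j => exact fun x z _ => h.q_dom1 n i k j x z
    | V_dom n φ => exact fun x _ _ => h.V_dom n φ x
    | q_refl n i => exact fun x _ _ => h.q_refl n i x
    | q_symm n i k j => exact fun x z _ => h.q_symm n i k j x z
    | q_trans n i k j l m => exact fun x z w => h.q_trans n i k j l m x z w
    | q_one n i =>
      intro x y
      by_cases hx : U S n x
      · obtain ⟨z, hz⟩ := h.q_one n i x hx
        exact ⟨z, fun _ => hz⟩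
      · exact ⟨x, fun h1 => absurd h1 hx⟩
    | ext n =>
      intro x y
      by_cases hx : U S n x ∧ U S 1 y
      · obtain ⟨z, hz⟩ := h.ext n x y hx.1 hx.2
        refine ⟨z, fun _ _ => ?_⟩
        rw [Q3.ev_and, Q3.ev_and, ev_cj]
        exact hz
      · exact ⟨x, fun h1 h2 => absurd ⟨h1, h2⟩ hx⟩
    | uniq n => exact fun x z _ hx hz hq => h.uniq n x z hx hz ((ev_cj S _ _).1 hq)
    | sub n k F ts => exact fun x z _ hx hz hq => h.sub n k F ts x z hx hz ((ev_cj S _ _).1 hq)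
    | V_bot n => exact fun x _ _ => h.V_bot n x
    | V_imp1 n φ ψ =>
      intro x _ _ h1
      exact (h.V_imp n φ ψ x (h.V_dom _ _ _ h1)).1 h1
    | V_imp2 n φ ψ => exact fun x _ _ hx h1 => (h.V_imp n φ ψ x hx).2 h1
    | V_all1 n φ => exact fun x z _ hx hz hq => h.V_all1 n φ x z hx hz ((ev_cj S _ _).1 hq)
    | V_all2 n φ =>
      intro x y
      by_cases hx : U S n x ∧ ¬ V S n φ.all x
      · obtain ⟨z, hz⟩ := h.V_all2 n φ x hx.1 hx.2
        refine ⟨z, fun _ _ => ?_⟩
        rw [Q3.ev_and, Q3.ev_and, ev_cj]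
        exact hz
      · exact ⟨x, fun h1 h2 => absurd ⟨h1, h2⟩ hx⟩
    | V_eq1 n i j =>
      intro x _ _ h1
      exact (h.V_eq n i j x (h.V_dom _ _ _ h1)).1 h1
    | V_eq2 n i j => exact fun x _ _ hx h1 => (h.V_eq n i j x hx).2 h1
    | V_rel1 n k R s =>
      exact fun x z _ hx hz hq => (h.V_rel n k R s x z hx hz ((ev_cj S _ _).1 hq)).1
    | V_rel2 n k R s =>
      exact fun x z _ hx hz hq => (h.V_rel n k R s x z hx hz ((ev_cj S _ _).1 hq)).2
    | V_T σ hσ => exact fun x _ _ => h.V_T σ hσ x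

theorem model_iff [Nonempty M] (T : Set L.Sentence) (S : (Ls L).Structure M) :
    @Theory.Model (Ls L) M S (Ts T) ↔ Good T S := by
  rw [← good_iff]
  constructor
  · intro h b θ hA
    exact (realize_cl S b θ).1
      (@Theory.realize_sentence_of_mem (Ls L) M S (Ts T) h (cl b θ) ⟨b, θ, hA, rfl⟩)
  · intro h
    refine @Theory.Model.mk (Ls L) M S (Ts T) ?_
    rintro _ ⟨b, θ, hA, rfl⟩
    exact (realize_cl S b θ).2 (h b θ hA)

theorem Ts_form (T : Set L.Sentence) : ∀ σ ∈ Ts T, ∃ θ : (Ls L).BoundedFormula Empty 3, θ.IsQF ∧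
    (σ = θ.all.all.all ∨ σ = θ.ex.all.all) := by
  rintro _ ⟨b, θ, _, rfl⟩
  refine ⟨θ.toB, θ.toB_qf, ?_⟩
  cases b
  · exact Or.inr rfl
  · exact Or.inl rfl

end good

end Pool.Agent.Run7.h271.TV
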