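import Pool.Agent.Run7.h271.TV.Cant

/-!
The transfer of the alternative of Vaught's conjecture.
-/

set_option autoImplicit false
set_option linter.style.haveILetI false

namespace Pool.Agent.Run7.h271.TV

open FirstOrder FirstOrder.Language Set MeasureTheory

/-- The models of the theory `T` with universe `ℕ` have countably many isomorphism types, or some
continuous family of models, indexed by the Cantor space, consists of pairwise non-isomorphic
structures (this is the alternative in the frozen statement). -/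
def Alternative {L : FirstOrder.Language.{0, 0}} (T : L.Theory) : Prop :=
  (∃ g : ℕ → L.Structure ℕ, ∀ S : L.Structure ℕ,
      @FirstOrder.Language.Theory.Model L ℕ S T →
        ∃ n : ℕ, Nonempty (@FirstOrder.Language.Equiv L ℕ ℕ S (g n))) ∨
  (∃ f : (ℕ → Bool) → L.Structure ℕ,
      (∀ x : ℕ → Bool, @FirstOrder.Language.Theory.Model L ℕ (f x) T) ∧
      (∀ x y : ℕ → Bool,
          Nonempty (@FirstOrder.Language.Equiv L ℕ ℕ (f x) (f y)) → x = y) ∧
      (∀ (n : ℕ) (R : L.Relations n) (a : Fin n → ℕ),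
          IsClopen {x : ℕ → Bool | @FirstOrder.Language.Structure.RelMap L ℕ (f x) n R a}) ∧
      (∀ (n : ℕ) (F : L.Functions n) (a : Fin n → ℕ) (b : ℕ),
          IsOpen {x : ℕ → Bool | @FirstOrder.Language.Structure.funMap L ℕ (f x) n F a = b}))

variable {L : FirstOrder.Language.{0, 0}}

theorem model_mono {A : Type} {S : L.Structure A} {T T' : L.Theory} (h : T ⊆ T')
    (hT : @Theory.Model L A S T') : @Theory.Model L A S T :=
  @Theory.Model.mono L A S T T' hT h

theorem model_union {A : Type} {S : L.Structure A} {T T' : L.Theory}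
    (h : @Theory.Model L A S T) (h' : @Theory.Model L A S T') : @Theory.Model L A S (T ∪ T') :=
  @Theory.Model.union L A S T T' h h'

theorem exists_enc : Nonempty (Empty ⊕ W ℕ ≃ ℕ) := by
  haveI : Infinite (W ℕ) := by
    refine Infinite.of_injective (fun n : ℕ => (⟨1, fun _ => n⟩ : W ℕ)) fun a b hab => ?_
    simp only [Sigma.mk.injEq, heq_eq_eq, true_and] at hab
    exact congrFun hab 0
  exact nonempty_equiv_of_countable

open Classical in
theorem list_case (T : L.Theory) (g : ℕ → (Ls L).Structure ℕ)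
    (hg : ∀ S : (Ls L).Structure ℕ, @Theory.Model (Ls L) ℕ S (Ts (T ∪ L.infiniteTheory)) →
      ∃ n : ℕ, Nonempty (@Language.Equiv (Ls L) ℕ ℕ S (g n))) :
    ∃ g' : ℕ → L.Structure ℕ, ∀ S : L.Structure ℕ, @Theory.Model L ℕ S T →
        ∃ n : ℕ, Nonempty (@Language.Equiv L ℕ ℕ S (g' n)) := by
  obtain ⟨e⟩ := exists_enc
  let enc : L.Structure ℕ → (Ls L).Structure ℕ := fun S =>
    @Equiv.inducedStructure (Ls L) (Empty ⊕ W ℕ) ℕ (std Empty S) e
  have henc : ∀ S, Iso (std Empty S) (enc S) := fun S =>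
    @iso_induced (Ls L) (Empty ⊕ W ℕ) ℕ (std Empty S) e
  have hgood : ∀ S : L.Structure ℕ, @Theory.Model L ℕ S T →
      Good (T ∪ L.infiniteTheory) (std Empty S) := fun S hS =>
    std_good S _ (model_union hS ((@model_infiniteTheory_iff L ℕ S).2 inferInstance))
  have hmod : ∀ S : L.Structure ℕ, @Theory.Model L ℕ S T →
      @Theory.Model (Ls L) ℕ (enc S) (Ts (T ∪ L.infiniteTheory)) := by
    intro S hS
    haveI : Nonempty (Empty ⊕ W ℕ) := ⟨Sum.inr ⟨0, Fin.elim0⟩⟩
    exact iso_model (henc S) _ ((model_iff _ _).2 (hgood S hS))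
  have hinj : ∀ S S' : L.Structure ℕ, @Theory.Model L ℕ S T → @Theory.Model L ℕ S' T →
      Iso (enc S) (enc S') → Iso S S' := by
    intro S S' hS hS' h
    have h1 : Iso (std Empty S) (std Empty S') := (henc S).trans (h.trans (henc S').symm)
    exact (std_dec (hgood S hS)).trans
      ((dec_iso (hgood S hS) (hgood S' hS') h1).trans (std_dec (hgood S' hS')).symm)
  let S₀ : L.Structure ℕ := ⟨fun _ _ => 0, fun _ _ => False⟩
  let g' : ℕ → L.Structure ℕ := fun n =>
    if h : ∃ S : L.Structure ℕ, @Theory.Model L ℕ S T ∧ Iso (enc S) (g n) then h.choose else S₀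
  refine ⟨g', fun S hS => ?_⟩
  obtain ⟨n, hn⟩ := hg _ (hmod S hS)
  have h : ∃ S : L.Structure ℕ, @Theory.Model L ℕ S T ∧ Iso (enc S) (g n) := ⟨S, hS, hn⟩
  refine ⟨n, ?_⟩
  have h1 : g' n = h.choose := dif_pos h
  rw [h1]
  have h2 := h.choose_spec
  exact hinj S h.choose hS h2.1 (Iso.trans hn h2.2.symm)

theorem polC : PolishSpace (ℕ → Bool) := by
  have h : TopologicalSpace.SeparableSpace (ℕ → Bool) := inferInstance
  infer_instance

theorem not_countable_cantor : ¬ (univ : Set (ℕ → Bool)).Countable := by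
  intro h
  obtain ⟨g, hg⟩ := h.exists_eq_range ⟨fun _ => true, trivial⟩
  have h1 : (fun n => !(g n n)) ∈ range g := by
    rw [← hg]
    trivial
  obtain ⟨n, hn⟩ := h1
  have h2 := congrFun hn n
  simp at h2

theorem exists_card (K : (ℕ → Bool) → Set ℕ) : ∃ κ : ℕ∞, ¬ {x | (K x).encard = κ}.Countable := by
  by_contra hcon
  push Not at hcon
  have h1 : (⋃ κ : ℕ∞, {x | (K x).encard = κ}).Countable := countable_iUnion hcon
  have h2 : (⋃ κ : ℕ∞, {x | (K x).encard = κ}) = univ := by
    ext x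
    simp
  rw [h2] at h1
  exact not_countable_cantor h1

theorem family_case (T : L.Theory) (f : (ℕ → Bool) → (Ls L).Structure ℕ)
    (hmod : ∀ x, @Theory.Model (Ls L) ℕ (f x) (Ts (T ∪ L.infiniteTheory)))
    (hinj : ∀ x y, Nonempty (@Language.Equiv (Ls L) ℕ ℕ (f x) (f y)) → x = y)
    (hcl : ∀ (n : ℕ) (R : (Ls L).Relations n) (a : Fin n → ℕ),
      IsClopen {x : ℕ → Bool | @Structure.RelMap (Ls L) ℕ (f x) n R a}) :
    ∃ f' : (ℕ → Bool) → L.Structure ℕ,
      (∀ x : ℕ → Bool, @Theory.Model L ℕ (f' x) T) ∧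
      (∀ x y : ℕ → Bool, Nonempty (@Language.Equiv L ℕ ℕ (f' x) (f' y)) → x = y) ∧
      (∀ (n : ℕ) (R : L.Relations n) (a : Fin n → ℕ),
          IsClopen {x : ℕ → Bool | @Structure.RelMap L ℕ (f' x) n R a}) ∧
      (∀ (n : ℕ) (F : L.Functions n) (a : Fin n → ℕ) (b : ℕ),
          IsOpen {x : ℕ → Bool | @Structure.funMap L ℕ (f' x) n F a = b}) := by
  have hg : ∀ x, Good (T ∪ L.infiniteTheory) (f x) := fun x => (model_iff _ _).1 (hmod x)
  have hi : ∀ x, Infinite (D (f x)) := fun x =>
    (@model_infiniteTheory_iff L (D (f x)) (dec (hg x))).1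
      (model_mono subset_union_right (dec_model (hg x)))
  obtain ⟨κ, hκ⟩ := exists_card fun x => {y : ℕ | ∀ n, ¬ U (f x) n y}
  have hpol := polC
  obtain ⟨h, hc, hhinj, hh⟩ := EF.perfect_borel (meas_J hcl κ) hκ
  refine ⟨fun c => decN (hg (h c)) (hi (h c)), fun c => ?_, fun c c' hcc => ?_, fun n R a => ?_,
    fun n F a b => ?_⟩
  · exact iso_model (decN_iso (hg (h c)) (hi (h c))) T
      (model_mono subset_union_left (dec_model (hg (h c))))
  · have h1 : Iso (dec (hg (h c))) (dec (hg (h c'))) :=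
      (decN_iso (hg (h c)) (hi (h c))).trans (Iso.trans hcc (decN_iso (hg (h c')) (hi (h c'))).symm)
    have h2 : Nonempty (J (f (h c)) ≃ J (f (h c'))) := by
      refine EF.equiv_of_card ?_
      have h3 : {y : ℕ | ∀ n, ¬ U (f (h c)) n y}.encard = κ := hh c
      have h4 : {y : ℕ | ∀ n, ¬ U (f (h c')) n y}.encard = κ := hh c'
      exact h3.trans h4.symm
    exact hhinj (hinj _ _ (iso_of_dec (hg (h c)) (hg (h c')) h1 h2))
  · exact (decN_clopen hcl hg hi n R a).preimage hc
  · exact (decN_open hcl hg hi n F a b).preimage hc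

/-- the transfer -/
theorem transfer (T : L.Theory) (h : Alternative (Ts (T ∪ L.infiniteTheory))) :
    Alternative T := by
  rcases h with ⟨g, hg⟩ | ⟨f, h1, h2, h3, _⟩
  · exact Or.inl (list_case T g hg)
  · exact Or.inr (family_case T f h1 h2 h3)

end Pool.Agent.Run7.h271.TV
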